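import Pool.Agent.H19.STAT.Sys
import Pool.Agent.H36.KBX.Coef

/-!
# Weighted norms of polynomials in the variables `ℕ`: general lemmas
-/

set_option autoImplicit false

namespace Pool.SYS35

open Finset MvPolynomial Pool.STAT

theorem coeff_trw (d : ℕ → ℕ) (r : ℕ) (F : PN) (m : ℕ →₀ ℕ) :
    coeff m (trw d r F) = if Finsupp.weight d m < r then coeff m F else 0 := by
  unfold trw
  rw [coeff_sum]
  simp only [coeff_weightedHomogeneousComponent]
  by_cases h : Finsupp.weight d m < r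
  · rw [if_pos h, Finset.sum_eq_single (Finsupp.weight d m), if_pos rfl]
    · intro b _ hb
      rw [if_neg (Ne.symm hb)]
    · intro h2
      exact absurd (mem_range.2 h) h2
  · rw [if_neg h]
    refine Finset.sum_eq_zero fun b hb => if_neg fun h2 => h ?_
    rw [h2]
    exact mem_range.1 hb

theorem coeff_gew (d : ℕ → ℕ) (r : ℕ) (F : PN) (m : ℕ →₀ ℕ) :
    coeff m (gew d r F) = if Finsupp.weight d m < r then 0 else coeff m F := by
  unfold gew
  rw [coeff_sub, coeff_trw]
  split_ifs <;> simp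

theorem trw_self {d : ℕ → ℕ} {r : ℕ} {F : PN} (h : ∀ k ∈ F.support, Finsupp.weight d k < r) :
    trw d r F = F := by
  ext m
  rw [coeff_trw]
  split_ifs with h1
  · rfl
  · by_contra h2
    exact h1 (h m (mem_support_iff.2 (Ne.symm h2)))

theorem support_trw (d : ℕ → ℕ) (r : ℕ) (F : PN) : (trw d r F).support ⊆ F.support := by
  intro m hm
  rw [mem_support_iff, coeff_trw] at hm
  rw [mem_support_iff]
  intro h
  rw [h] at hm
  simp at hm

theorem support_gew (d : ℕ → ℕ) (r : ℕ) (F : PN) : (gew d r F).support ⊆ F.support := by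
  intro m hm
  rw [mem_support_iff, coeff_gew] at hm
  rw [mem_support_iff]
  intro h
  rw [h] at hm
  simp at hm

theorem vars_sub_of_support {F G : PN} (h : F.support ⊆ G.support) : F.vars ⊆ G.vars := by
  classical
  intro i hi
  rw [mem_vars_iff_mem_support] at hi ⊢
  obtain ⟨m, hm, h1⟩ := hi
  exact ⟨m, h hm, h1⟩

theorem vars_trw (d : ℕ → ℕ) (r : ℕ) (F : PN) : (trw d r F).vars ⊆ F.vars :=
  vars_sub_of_support (support_trw d r F)

theorem vars_gew (d : ℕ → ℕ) (r : ℕ) (F : PN) : (gew d r F).vars ⊆ F.vars :=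
  vars_sub_of_support (support_gew d r F)

theorem vars_of_mem {F : PN} {n : ℕ} (hv : F.vars ⊆ range n) {k : ℕ →₀ ℕ} (hk : k ∈ F.support)
    {i : ℕ} (hi : i ∈ k.support) : i < n :=
  mem_range.1 (hv ((mem_vars_iff_mem_support i).2 ⟨k, hk, hi⟩))

/-- The weights of a polynomial of bounded degree. -/
theorem weight_le {d : ℕ → ℕ} {n K m : ℕ} {F : PN} (hv : F.vars ⊆ range n)
    (hK : F.totalDegree ≤ K) (hm : ∀ i < n, d i ≤ m) :
    ∀ k ∈ F.support, Finsupp.weight d k ≤ K * m := by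
  intro k hk
  rw [Finsupp.weight_apply, Finsupp.sum]
  calc ∑ i ∈ k.support, k i • d i ≤ ∑ i ∈ k.support, k i * m := by
        refine Finset.sum_le_sum fun i hi => ?_
        rw [smul_eq_mul]
        exact Nat.mul_le_mul_left _ (hm i (vars_of_mem hv hk hi))
    _ = (∑ i ∈ k.support, k i) * m := by rw [Finset.sum_mul]
    _ ≤ K * m := Nat.mul_le_mul_right _ ((le_totalDegree hk).trans hK)

theorem nrm_nonneg' (d : ℕ → ℕ) {ρ : ℝ} (hρ : 0 ≤ ρ) (F : PN) : 0 ≤ nrm d ρ F :=
  Finset.sum_nonneg fun _ _ => mul_nonneg (abs_nonneg _) (pow_nonneg hρ _)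

/-- The norm at a larger scale. -/
theorem nrm_scale {d : ℕ → ℕ} {D : ℕ} {F : PN} (h : ∀ k ∈ F.support, Finsupp.weight d k ≤ D)
    {A ρ : ℝ} (hA : 1 ≤ A) (hρ : 0 ≤ ρ) : nrm d (A * ρ) F ≤ A ^ D * nrm d ρ F := by
  unfold nrm
  rw [Finset.mul_sum]
  refine Finset.sum_le_sum fun k hk => ?_
  rw [mul_pow]
  calc |F.coeff k| * (A ^ Finsupp.weight d k * ρ ^ Finsupp.weight d k) =
      A ^ Finsupp.weight d k * (|F.coeff k| * ρ ^ Finsupp.weight d k) := by ring
    _ ≤ A ^ D * (|F.coeff k| * ρ ^ Finsupp.weight d k) :=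
      mul_le_mul_of_nonneg_right (pow_le_pow_right₀ hA (h k hk))
        (mul_nonneg (abs_nonneg _) (pow_nonneg hρ _))

theorem nrm_mono {d : ℕ → ℕ} {F : PN} {ρ ρ' : ℝ} (hρ : 0 ≤ ρ) (h : ρ ≤ ρ') :
    nrm d ρ F ≤ nrm d ρ' F :=
  Finset.sum_le_sum fun _ _ => mul_le_mul_of_nonneg_left (pow_le_pow_left₀ hρ h _) (abs_nonneg _)

theorem eval_bind (b : ℕ → ℝ) (f : ℕ → PN) (F : PN) :
    eval b (bind₁ f F) = eval (fun j => eval b (f j)) F :=
  eval₂Hom_bind₁ (RingHom.id ℝ) b f F

theorem eval_congr {F : PN} {n : ℕ} (hv : F.vars ⊆ range n) {b b' : ℕ → ℝ}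
    (h : ∀ i < n, b i = b' i) : eval b F = eval b' F :=
  eval₂Hom_congr' rfl (fun i hi _ => h i (mem_range.1 (hv hi))) rfl

/-- The norm of a polynomial from its values on a weighted box. -/
theorem nrm_of_sup (n K : ℕ) : ∃ C : ℝ, 1 ≤ C ∧ ∀ (d : ℕ → ℕ) (ρ : ℝ) (F : PN) (S : ℝ), 0 < ρ →
    F.vars ⊆ range n → F.totalDegree ≤ K →
    (∀ b : ℕ → ℝ, (∀ i < n, |b i| ≤ ρ ^ d i) → |eval b F| ≤ S) → nrm d ρ F ≤ C * S := by
  classical
  obtain ⟨C, hC0, hC⟩ := Pool.Agent.H36.KBX.coef_bound n K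
  refine ⟨(Pool.Agent.H36.KBX.bx n K).card * C + 1, by
    have : (0 : ℝ) ≤ (Pool.Agent.H36.KBX.bx n K).card * C := by positivity
    linarith, ?_⟩
  intro d ρ F S hρ hv hK hS
  have hS0 : 0 ≤ S := (abs_nonneg _).trans (hS (fun _ => 0) fun i _ => by
    rw [abs_zero]
    positivity)
  have hinj : Function.Injective (fun i : Fin n => (i : ℕ)) := Fin.val_injective
  obtain ⟨P, hP⟩ := exists_rename_eq_of_vars_subset_range F (fun i : Fin n => (i : ℕ)) hinj (by
    intro i hi
    have h1 := mem_range.1 (hv (Finset.mem_coe.1 hi))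
    exact ⟨⟨i, h1⟩, rfl⟩)
  have hsupp : F.support = P.support.image (Finsupp.mapDomain fun i : Fin n => (i : ℕ)) := by
    rw [← hP]
    exact support_rename_of_injective hinj
  have hmi : Function.Injective (Finsupp.mapDomain (M := ℕ) fun i : Fin n => (i : ℕ)) :=
    Finsupp.mapDomain_injective hinj
  have hcoef : ∀ k, coeff (Finsupp.mapDomain (fun i : Fin n => (i : ℕ)) k) F = coeff k P := by
    intro k
    rw [← hP]
    exact coeff_rename_mapDomain _ hinj P k
  have hwt : ∀ k : Fin n →₀ ℕ, Finsupp.weight d (Finsupp.mapDomain (fun i : Fin n => (i : ℕ)) k) =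
      Finsupp.weight (fun i : Fin n => d i) k := by
    intro k
    rw [Finsupp.weight_apply, Finsupp.weight_apply]
    exact Finsupp.sum_mapDomain_index (fun _ => by simp) (fun _ _ _ => by simp [add_mul])
  -- the scaled polynomial
  set w : (Fin n →₀ ℕ) → ℕ := fun k => Finsupp.weight (fun i : Fin n => d i) k with hw
  set Q : MvPolynomial (Fin n) ℝ := ∑ k ∈ P.support, monomial k (coeff k P * ρ ^ w k) with hQ
  have hQc : ∀ k, coeff k Q = coeff k P * ρ ^ w k := by
    intro k
    rw [hQ, coeff_sum]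
    simp only [coeff_monomial]
    rw [Finset.sum_ite_eq' P.support k]
    split_ifs with h
    · rfl
    · rw [notMem_support_iff.1 h, zero_mul]
  have hQs : Q.support ⊆ P.support := by
    intro k hk
    rw [mem_support_iff, hQc] at hk
    rw [mem_support_iff]
    exact left_ne_zero_of_mul hk
  have hPd : P.totalDegree ≤ K := by
    refine Finset.sup_le fun k hk => ?_
    have h1 := le_totalDegree (p := F) (s := Finsupp.mapDomain (fun i : Fin n => (i : ℕ)) k) (by
      rw [hsupp]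
      exact Finset.mem_image_of_mem _ hk)
    have h2 : (Finsupp.mapDomain (fun i : Fin n => (i : ℕ)) k).sum (fun _ e => e) =
        k.sum fun _ e => e :=
      Finsupp.sum_mapDomain_index (fun _ => rfl) (fun _ _ _ => rfl)
    rw [h2] at h1
    exact h1.trans hK
  have hQd : Q.totalDegree ≤ K := by
    refine Finset.sup_le fun k hk => ?_
    exact (le_totalDegree (hQs hk)).trans hPd
  have hQe : ∀ y : Fin n → ℝ, (∀ i, |y i| ≤ 1) → |eval y Q| ≤ S := by
    intro y hy
    have h1 : eval y Q = eval (fun i : Fin n => ρ ^ d i * y i) P := by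
      rw [hQ, map_sum, eval_eq']
      refine Finset.sum_congr rfl fun k _ => ?_
      rw [eval_monomial, Finsupp.prod_fintype _ _ (fun _ => pow_zero _)]
      have h2 : ρ ^ w k = ∏ i : Fin n, (ρ ^ d i) ^ k i := by
        rw [hw]
        simp only [Finsupp.weight_apply]
        rw [Finsupp.sum_fintype _ _ (fun _ => by simp), ← Finset.prod_pow_eq_pow_sum]
        refine Finset.prod_congr rfl fun i _ => ?_
        rw [← pow_mul, smul_eq_mul, mul_comm]
      rw [h2, mul_assoc, ← Finset.prod_mul_distrib]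
      congr 1
      refine Finset.prod_congr rfl fun i _ => ?_
      rw [mul_pow]
    have h2 : eval (fun i : Fin n => ρ ^ d i * y i) P =
        eval (fun j : ℕ => if h : j < n then ρ ^ d j * y ⟨j, h⟩ else 0) F := by
      rw [← hP, eval_rename]
      have h3 : (fun i : Fin n => ρ ^ d i * y i) =
          (fun j : ℕ => if h : j < n then ρ ^ d j * y ⟨j, h⟩ else 0) ∘ fun i : Fin n => (i : ℕ) := by
        funext i
        simp
      rw [h3]
    rw [h1, h2]
    refine hS _ fun i hi => ?_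
    rw [dif_pos hi, abs_mul, abs_of_pos (pow_pos hρ _)]
    calc ρ ^ d i * |y ⟨i, hi⟩| ≤ ρ ^ d i * 1 := mul_le_mul_of_nonneg_left (hy _) (pow_pos hρ _).le
      _ = ρ ^ d i := mul_one _
  have hb := hC Q S hQd hQe
  have h1 : nrm d ρ F = ∑ k ∈ P.support, |coeff k Q| := by
    unfold nrm
    rw [hsupp, Finset.sum_image (fun a _ b _ h => hmi h)]
    refine Finset.sum_congr rfl fun k _ => ?_
    rw [hcoef, hwt, hQc, abs_mul, abs_of_pos (pow_pos hρ _)]
  rw [h1]
  calc ∑ k ∈ P.support, |coeff k Q| ≤ ∑ k ∈ Pool.Agent.H36.KBX.bx n K, |coeff k Q| :=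
        Finset.sum_le_sum_of_subset_of_nonneg (Pool.Agent.H36.KBX.support_bx P hPd)
          fun _ _ _ => abs_nonneg _
    _ ≤ ∑ _k ∈ Pool.Agent.H36.KBX.bx n K, C * S := Finset.sum_le_sum fun k _ => hb k
    _ = (Pool.Agent.H36.KBX.bx n K).card * C * S := by
        rw [Finset.sum_const, nsmul_eq_mul]
        ring
    _ ≤ ((Pool.Agent.H36.KBX.bx n K).card * C + 1) * S := by nlinarith

end Pool.SYS35
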