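import Pool.Agent.H35.SYS.Bxn

/-!
# Row 114 NAT: natural and adapted coordinates
-/

set_option autoImplicit false

namespace Pool.SYS35

open Finset MvPolynomial Pool.STAT

/-! ### Lipschitz bounds -/

theorem pow_diff {a a' M ε : ℝ} (hM : 0 ≤ M) (hε : 0 ≤ ε) (ha : |a| ≤ M) (ha' : |a'| ≤ M)
    (h : |a - a'| ≤ M * ε) (k : ℕ) : |a ^ k - a' ^ k| ≤ k * M ^ k * ε := by
  induction k with
  | zero => simp
  | succ k ih =>
    have h1 : a ^ (k + 1) - a' ^ (k + 1) = a * (a ^ k - a' ^ k) + (a - a') * a' ^ k := by ring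
    rw [h1]
    refine (abs_add_le _ _).trans ?_
    rw [abs_mul, abs_mul, abs_pow]
    have h2 : |a| * |a ^ k - a' ^ k| ≤ M * (k * M ^ k * ε) :=
      mul_le_mul ha ih (abs_nonneg _) hM
    have h3 : |a - a'| * |a'| ^ k ≤ (M * ε) * M ^ k :=
      mul_le_mul h (pow_le_pow_left₀ (abs_nonneg _) ha' k) (by positivity) (by positivity)
    push_cast
    rw [pow_succ]
    nlinarith

theorem prod_diff {s : Finset ℕ} (k : ℕ → ℕ) {a a' M : ℕ → ℝ} {ε : ℝ} (hε : 0 ≤ ε)
    (hM : ∀ j ∈ s, 0 ≤ M j) (ha : ∀ j ∈ s, |a j| ≤ M j) (ha' : ∀ j ∈ s, |a' j| ≤ M j)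
    (h : ∀ j ∈ s, |a j - a' j| ≤ M j * ε) :
    |∏ j ∈ s, a j ^ k j - ∏ j ∈ s, a' j ^ k j| ≤ (∑ j ∈ s, k j : ℕ) * (∏ j ∈ s, M j ^ k j) * ε := by
  classical
  induction s using Finset.induction_on with
  | empty => simp
  | insert i s hi ih =>
    rw [Finset.prod_insert hi, Finset.prod_insert hi, Finset.prod_insert hi, Finset.sum_insert hi]
    have ih' := ih (fun j hj => hM j (Finset.mem_insert_of_mem hj))
      (fun j hj => ha j (Finset.mem_insert_of_mem hj))
      (fun j hj => ha' j (Finset.mem_insert_of_mem hj))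
      (fun j hj => h j (Finset.mem_insert_of_mem hj))
    have hMi := hM i (Finset.mem_insert_self i s)
    have h1 := pow_diff hMi hε (ha i (Finset.mem_insert_self i s))
      (ha' i (Finset.mem_insert_self i s)) (h i (Finset.mem_insert_self i s)) (k i)
    have h2 : |∏ j ∈ s, a' j ^ k j| ≤ ∏ j ∈ s, M j ^ k j := by
      rw [Finset.abs_prod]
      refine Finset.prod_le_prod (fun _ _ => abs_nonneg _) fun j hj => ?_
      rw [abs_pow]
      exact pow_le_pow_left₀ (abs_nonneg _) (ha' j (Finset.mem_insert_of_mem hj)) _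
    have h3 : 0 ≤ ∏ j ∈ s, M j ^ k j :=
      Finset.prod_nonneg fun j hj => pow_nonneg (hM j (Finset.mem_insert_of_mem hj)) _
    have h4 : a i ^ k i * ∏ j ∈ s, a j ^ k j - a' i ^ k i * ∏ j ∈ s, a' j ^ k j =
        a i ^ k i * (∏ j ∈ s, a j ^ k j - ∏ j ∈ s, a' j ^ k j) +
          (a i ^ k i - a' i ^ k i) * ∏ j ∈ s, a' j ^ k j := by ring
    rw [h4]
    refine (abs_add_le _ _).trans ?_
    rw [abs_mul, abs_mul, abs_pow]
    have h5 : |a i| ^ k i * |∏ j ∈ s, a j ^ k j - ∏ j ∈ s, a' j ^ k j| ≤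
        M i ^ k i * ((∑ j ∈ s, k j : ℕ) * (∏ j ∈ s, M j ^ k j) * ε) :=
      mul_le_mul (pow_le_pow_left₀ (abs_nonneg _) (ha i (Finset.mem_insert_self i s)) _) ih'
        (abs_nonneg _) (by positivity)
    have h6 : |a i ^ k i - a' i ^ k i| * |∏ j ∈ s, a' j ^ k j| ≤
        (k i * M i ^ k i * ε) * ∏ j ∈ s, M j ^ k j :=
      mul_le_mul h1 h2 (abs_nonneg _) (by positivity)
    refine (add_le_add h5 h6).trans (le_of_eq ?_)
    push_cast
    ring

/-- A polynomial is Lipschitz on weighted boxes. -/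
theorem lip_eval {d : ℕ → ℕ} (hd : ∀ i, 1 ≤ d i) {F : PN} {D : ℕ}
    (hw : ∀ k ∈ F.support, Finsupp.weight d k ≤ D) {ρ B ε : ℝ} (hρ : 0 < ρ) (hB : 1 ≤ B)
    (hε : 0 ≤ ε) {Y Y' : ℕ → ℝ} (hY : ∀ i ∈ F.vars, |Y i| ≤ (B * ρ) ^ d i)
    (hY' : ∀ i ∈ F.vars, |Y' i| ≤ (B * ρ) ^ d i)
    (hYY : ∀ i ∈ F.vars, |Y i - Y' i| ≤ ρ ^ d i * ε) :
    |eval Y F - eval Y' F| ≤ D * B ^ D * nrm d ρ F * ε := by
  have hBρ : 0 < B * ρ := by positivity
  have hYY' : ∀ i ∈ F.vars, |Y i - Y' i| ≤ (B * ρ) ^ d i * ε := by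
    intro i hi
    refine (hYY i hi).trans (mul_le_mul_of_nonneg_right ?_ hε)
    refine pow_le_pow_left₀ hρ.le ?_ _
    nlinarith
  rw [eval_eq, eval_eq, ← Finset.sum_sub_distrib]
  have h1 : |∑ k ∈ F.support, (coeff k F * ∏ i ∈ k.support, Y i ^ k i -
      coeff k F * ∏ i ∈ k.support, Y' i ^ k i)| ≤
      ∑ k ∈ F.support, |coeff k F| * (D * (B * ρ) ^ Finsupp.weight d k * ε) := by
    refine (Finset.abs_sum_le_sum_abs _ _).trans (Finset.sum_le_sum fun k hk => ?_)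
    rw [← mul_sub, abs_mul]
    refine mul_le_mul_of_nonneg_left ?_ (abs_nonneg _)
    have hv : ∀ j ∈ k.support, j ∈ F.vars := fun j hj =>
      (mem_vars_iff_mem_support j).2 ⟨k, hk, hj⟩
    have h2 := prod_diff (s := k.support) (fun i => k i) hε (fun j _ => (by positivity : (0 : ℝ) ≤
      (B * ρ) ^ d j)) (fun j hj => hY j (hv j hj)) (fun j hj => hY' j (hv j hj))
      (fun j hj => hYY' j (hv j hj))
    have h3 : ∏ j ∈ k.support, ((B * ρ) ^ d j) ^ k j = (B * ρ) ^ Finsupp.weight d k := by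
      rw [Finsupp.weight_apply, Finsupp.sum, ← Finset.prod_pow_eq_pow_sum]
      refine Finset.prod_congr rfl fun j _ => ?_
      rw [← pow_mul, smul_eq_mul, Nat.mul_comm]
    have h4 : (∑ j ∈ k.support, k j) ≤ D := by
      refine le_trans ?_ (hw k hk)
      rw [Finsupp.weight_apply, Finsupp.sum]
      refine Finset.sum_le_sum fun j _ => ?_
      rw [smul_eq_mul]
      exact Nat.le_mul_of_pos_right _ (hd j)
    refine h2.trans ?_
    rw [h3]
    refine mul_le_mul_of_nonneg_right ?_ hε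
    exact mul_le_mul_of_nonneg_right (by exact_mod_cast h4) (by positivity)
  refine h1.trans ?_
  have h5 : ∑ k ∈ F.support, |coeff k F| * (D * (B * ρ) ^ Finsupp.weight d k * ε) =
      D * ε * nrm d (B * ρ) F := by
    unfold nrm
    rw [Finset.mul_sum]
    refine Finset.sum_congr rfl fun k _ => ?_
    ring
  rw [h5]
  have h6 := nrm_scale hw hB hρ.le
  calc D * ε * nrm d (B * ρ) F ≤ D * ε * (B ^ D * nrm d ρ F) :=
        mul_le_mul_of_nonneg_left h6 (by positivity)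
    _ = D * B ^ D * nrm d ρ F * ε := by ring

/-! ### Triangular systems of inequalities -/

theorem exp_le_pow {a z : ℝ} (h : 0 ≤ a * z) {e : ℕ} (he : 1 ≤ e) :
    Real.exp (a * z) ≤ Real.exp (a * z) ^ e :=
  le_self_pow₀ (Real.one_le_exp h) (by omega)

/-- Bounds of a triangular system. -/
theorem tri_bound {d : ℕ → ℕ} (hd : ∀ i, 1 ≤ d i) {n' D z : ℕ} (hz : 1 ≤ z) {ρ a : ℝ}
    (hρ : 0 < ρ) (ha : 0 ≤ a) {F : ℕ → PN} {Y : ℕ → ℝ}
    (hv : ∀ i < n', (F i).vars ⊆ range i)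
    (hw : ∀ i < n', ∀ k ∈ (F i).support, Finsupp.weight d k ≤ D)
    (hG : ∀ i < n', nrm d ρ (F i) ≤ Real.exp (a * z) * ρ ^ d i)
    (hev : ∀ (ρ : ℝ), 0 < ρ → ∀ (b : ℕ → ℝ) (F : PN), (∀ i ∈ F.vars, |b i| ≤ ρ ^ d i) →
      |eval b F| ≤ nrm d ρ F)
    (hY : ∀ i < n', |Y i| ≤ Real.exp (a * z) * ρ ^ d i + |eval Y (F i)|) :
    ∀ i ≤ n', ∀ j < i, |Y j| ≤ (Real.exp (cst (1 + a + a) D i * z) * ρ) ^ d j := by
  have hA : 0 ≤ 1 + a + a := by linarith
  intro i
  induction i with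
  | zero => exact fun _ j hj => absurd hj (Nat.not_lt_zero j)
  | succ i ih =>
    intro hi j hj
    have ih' := ih (by omega)
    have hmono : Real.exp (cst (1 + a + a) D i * z) ≤
        Real.exp (cst (1 + a + a) D (i + 1) * z) :=
      Real.exp_le_exp.2 (mul_le_mul_of_nonneg_right (cst_mono hA D (Nat.le_succ i))
        (Nat.cast_nonneg z))
    rcases Nat.lt_succ_iff_lt_or_eq.1 hj with hj | rfl
    · refine (ih' j hj).trans (pow_le_pow_left₀ (by positivity) ?_ _)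
      exact mul_le_mul_of_nonneg_right hmono hρ.le
    · have hj' : j < n' := by omega
      set E := Real.exp (cst (1 + a + a) D j * z) with hE
      have hE1 : 1 ≤ E := Real.one_le_exp (mul_nonneg (cst_nonneg hA D j) (Nat.cast_nonneg z))
      have e5 : |eval Y (F j)| ≤ nrm d (E * ρ) (F j) := by
        refine hev _ (by positivity) Y _ fun c hc => ih' c ?_
        exact mem_range.1 ((hv j hj') hc)
      have e6 : nrm d (E * ρ) (F j) ≤ E ^ D * nrm d ρ (F j) :=
        nrm_scale (hw j hj') hE1 hρ.le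
      have e7 : E ^ D * nrm d ρ (F j) ≤ E ^ D * (Real.exp (a * z) * ρ ^ d j) :=
        mul_le_mul_of_nonneg_left (hG j hj') (by positivity)
      have e9 : |Y j| ≤ (Real.exp (a * z) + E ^ D * Real.exp (a * z)) * ρ ^ d j := by
        refine (hY j hj').trans ?_
        linarith [e5.trans (e6.trans e7)]
      have e10 : Real.exp (a * z) + E ^ D * Real.exp (a * z) ≤
          Real.exp (cst (1 + a + a) D (j + 1) * z) := by
        have a1 : E ^ D * Real.exp (a * z) = Real.exp ((D * cst (1 + a + a) D j + a) * z) := by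
          rw [hE, ← Real.exp_nat_mul, ← Real.exp_add]
          congr 1
          ring
        have hc0 := cst_nonneg hA D j
        have hDc : (0 : ℝ) ≤ D * cst (1 + a + a) D j := by positivity
        have hz0 : (0 : ℝ) ≤ z := Nat.cast_nonneg z
        have a2 : Real.exp (a * z) ≤ Real.exp ((D * cst (1 + a + a) D j + a) * z) :=
          Real.exp_le_exp.2 (mul_le_mul_of_nonneg_right (by linarith) hz0)
        rw [a1]
        calc _ ≤ 2 * Real.exp ((D * cst (1 + a + a) D j + a) * z) := by linarith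
          _ ≤ Real.exp z * Real.exp ((D * cst (1 + a + a) D j + a) * z) :=
            mul_le_mul_of_nonneg_right (two_le_exp hz) (Real.exp_pos _).le
          _ = Real.exp ((1 + a + D * cst (1 + a + a) D j) * z) := by
            rw [← Real.exp_add]
            congr 1
            ring
          _ ≤ Real.exp (cst (1 + a + a) D (j + 1) * z) := by
            refine Real.exp_le_exp.2 (mul_le_mul_of_nonneg_right ?_ hz0)
            have : cst (1 + a + a) D (j + 1) =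
              1 + a + a + D * cst (1 + a + a) D j + cst (1 + a + a) D j := rfl
            rw [this]
            linarith
      set E' := Real.exp (cst (1 + a + a) D (j + 1) * z) with hE'
      have hE'1 : 1 ≤ E' :=
        Real.one_le_exp (mul_nonneg (cst_nonneg hA D _) (Nat.cast_nonneg z))
      calc |Y j| ≤ E' * ρ ^ d j :=
            e9.trans (mul_le_mul_of_nonneg_right e10 (by positivity))
        _ ≤ E' ^ d j * ρ ^ d j :=
            mul_le_mul_of_nonneg_right (le_self_pow₀ hE'1 (by have := hd j; omega))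
              (by positivity)
        _ = (E' * ρ) ^ d j := (mul_pow _ _ _).symm

/-- One step of the Lipschitz estimate. -/
theorem lip_step {d : ℕ → ℕ} (hd : ∀ i, 1 ≤ d i) {D z i : ℕ} (hz : 1 ≤ z) {ρ a B c ε : ℝ}
    (hρ : 0 < ρ) (hB : 0 ≤ B) (hε : 0 ≤ ε) {F : PN} {Y Y' : ℕ → ℝ}
    (hw : ∀ k ∈ F.support, Finsupp.weight d k ≤ D)
    (hG : nrm d ρ F ≤ Real.exp (a * z) * ρ ^ d i)
    (hY : ∀ j ∈ F.vars, |Y j| ≤ (Real.exp (B * z) * ρ) ^ d j)
    (hY' : ∀ j ∈ F.vars, |Y' j| ≤ (Real.exp (B * z) * ρ) ^ d j)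
    (hYY : ∀ j ∈ F.vars, |Y j - Y' j| ≤ Real.exp (c * z) * ρ ^ d j * ε) :
    |eval Y F - eval Y' F| ≤ Real.exp ((D + B * D + a + c) * z) * ρ ^ d i * ε := by
  have hz0 : (0 : ℝ) ≤ z := Nat.cast_nonneg z
  have h1 := lip_eval hd hw hρ (Real.one_le_exp (mul_nonneg hB hz0))
    (mul_nonneg (Real.exp_pos (c * z)).le hε) hY hY' (fun j hj => (hYY j hj).trans (le_of_eq (by ring)))
  refine h1.trans ?_
  have h2 : (D : ℝ) ≤ Real.exp (D * z) := le_exp_mul hz (Nat.cast_nonneg D)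
  have h3 : Real.exp (B * z) ^ D = Real.exp (B * D * z) := by
    rw [← Real.exp_nat_mul]
    congr 1
    ring
  calc D * Real.exp (B * z) ^ D * nrm d ρ F * (Real.exp (c * z) * ε)
      ≤ Real.exp (D * z) * Real.exp (B * z) ^ D * (Real.exp (a * z) * ρ ^ d i) *
        (Real.exp (c * z) * ε) := by
        refine mul_le_mul_of_nonneg_right ?_ (by positivity)
        exact mul_le_mul (mul_le_mul_of_nonneg_right h2 (by positivity)) hG
          (nrm_nonneg' d hρ.le F) (by positivity)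
    _ = Real.exp ((D + B * D + a + c) * z) * ρ ^ d i * ε := by
        rw [h3, show (D + B * D + a + c) * (z : ℝ) = D * z + B * D * z + a * z + c * z by ring,
          Real.exp_add, Real.exp_add, Real.exp_add]
        ring

/-- The constants of the Lipschitz estimate. -/
noncomputable def cs2 (A : ℝ) (i : ℕ) : ℝ := (i + 1) * A

/-- Lipschitz bounds of a triangular system. -/
theorem tri_lip {d : ℕ → ℕ} (hd : ∀ i, 1 ≤ d i) {n' D z : ℕ} (hz : 1 ≤ z) {ρ a B ε : ℝ}
    (hρ : 0 < ρ) (ha : 0 ≤ a) (hB : 0 ≤ B) (hε : 0 ≤ ε) {F : ℕ → PN} {Y Y' : ℕ → ℝ}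
    (hv : ∀ i < n', (F i).vars ⊆ range i)
    (hw : ∀ i < n', ∀ k ∈ (F i).support, Finsupp.weight d k ≤ D)
    (hG : ∀ i < n', nrm d ρ (F i) ≤ Real.exp (a * z) * ρ ^ d i)
    (hY : ∀ i < n', |Y i| ≤ (Real.exp (B * z) * ρ) ^ d i)
    (hY' : ∀ i < n', |Y' i| ≤ (Real.exp (B * z) * ρ) ^ d i)
    (hYY : ∀ i < n', |Y i - Y' i| ≤ Real.exp (a * z) * ρ ^ d i * ε +
      |eval Y (F i) - eval Y' (F i)|) :
    ∀ i < n', |Y i - Y' i| ≤ Real.exp (cs2 (1 + D + B * D + a + a) i * z) * ρ ^ d i * ε := by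
  have hz0 : (0 : ℝ) ≤ z := Nat.cast_nonneg z
  have hD0 : (0 : ℝ) ≤ D := Nat.cast_nonneg D
  set A := 1 + (D : ℝ) + B * D + a + a with hAdef
  have hA0 : 0 ≤ A := by positivity
  intro i
  induction i using Nat.strong_induction_on with
  | _ i ih =>
    intro hi
    have h0 : ∀ j ∈ (F i).vars, j < i := fun j hj => mem_range.1 (hv i hi hj)
    have h1 : |eval Y (F i) - eval Y' (F i)| ≤
        Real.exp ((D + B * D + a + i * A) * z) * ρ ^ d i * ε := by
      refine lip_step hd hz hρ hB hε (hw i hi) (hG i hi) (fun j hj => hY j ((h0 j hj).trans hi))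
        (fun j hj => hY' j ((h0 j hj).trans hi)) fun j hj => ?_
      refine (ih j (h0 j hj) ((h0 j hj).trans hi)).trans ?_
      refine mul_le_mul_of_nonneg_right (mul_le_mul_of_nonneg_right (Real.exp_le_exp.2 ?_)
        (by positivity)) hε
      refine mul_le_mul_of_nonneg_right ?_ hz0
      unfold cs2
      refine mul_le_mul_of_nonneg_right ?_ hA0
      have h2 : j + 1 ≤ i := h0 j hj
      exact_mod_cast h2
    have hiA : (0 : ℝ) ≤ i * A := by positivity
    have hBD : (0 : ℝ) ≤ B * D := by positivity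
    have h2 : Real.exp (a * z) ≤ Real.exp ((D + B * D + a + a + i * A) * z) :=
      Real.exp_le_exp.2 (mul_le_mul_of_nonneg_right (by linarith) hz0)
    have h3 : Real.exp ((D + B * D + a + i * A) * z) ≤
        Real.exp ((D + B * D + a + a + i * A) * z) :=
      Real.exp_le_exp.2 (mul_le_mul_of_nonneg_right (by linarith) hz0)
    have h4 : 2 * Real.exp ((D + B * D + a + a + i * A) * z) ≤ Real.exp (cs2 A i * z) := by
      calc _ ≤ Real.exp z * Real.exp ((D + B * D + a + a + i * A) * z) :=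
            mul_le_mul_of_nonneg_right (two_le_exp hz) (Real.exp_pos _).le
        _ = Real.exp (cs2 A i * z) := by
            rw [← Real.exp_add]
            congr 1
            unfold cs2
            rw [hAdef]
            ring
    have h5 : 0 ≤ ρ ^ d i * ε := by positivity
    calc |Y i - Y' i| ≤ Real.exp (a * z) * ρ ^ d i * ε +
          Real.exp ((D + B * D + a + i * A) * z) * ρ ^ d i * ε := (hYY i hi).trans (by linarith)
      _ = (Real.exp (a * z) + Real.exp ((D + B * D + a + i * A) * z)) * (ρ ^ d i * ε) := by ring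
      _ ≤ Real.exp (cs2 A i * z) * (ρ ^ d i * ε) :=
          mul_le_mul_of_nonneg_right (by linarith) h5
      _ = Real.exp (cs2 A i * z) * ρ ^ d i * ε := by ring

theorem cs2_mono {A : ℝ} (hA : 0 ≤ A) {i j : ℕ} (h : i ≤ j) : cs2 A i ≤ cs2 A j := by
  unfold cs2
  refine mul_le_mul_of_nonneg_right ?_ hA
  have : (i : ℝ) ≤ j := by exact_mod_cast h
  linarith

theorem cs2_nonneg {A : ℝ} (hA : 0 ≤ A) (i : ℕ) : 0 ≤ cs2 A i := by
  unfold cs2
  positivity

/-- The adapted coordinates of the level `v'` of the point with the natural coordinates `y` of the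
level `v`. -/
noncomputable def zz (D : NDat) (d : ℕ → ℕ) (v v' : ℕ) (x : ℕ → D.Γ) (y : ℕ → ℝ) (i : ℕ) : ℝ :=
  eval (fun j => eval y (nuc (D.g v) (D.P v (x v)) j)) (tinv (adp d (D.P v' (x v'))) i)

/-- **Natural coordinates of the level `v` and adapted coordinates of the level `v'`.** -/
theorem nat_core (hA : AdxStmt) (hD : DgbStmt) (hN : NrmStmt) (hL : LadStmt) (n K : ℕ)
    (d : ℕ → ℕ) (C₁ C₂ : ℝ) (hd0 : d 0 = 1) (hd : ∀ i, 1 ≤ d i) (hC₁ : 1 ≤ C₁) (hC₂ : 1 ≤ C₂) :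
    ∃ C₃ : ℝ, 1 ≤ C₃ ∧ ∀ N : ℕ, ∃ z₀ : ℕ, ∀ (z : ℕ) (D : NDat) (x : ℕ → D.Γ) (v v' : ℕ),
    z₀ ≤ z → v ≤ v' → v' ≤ N → D.GB K d z C₁ C₂ v' n x → ∀ y y' : ℕ → ℝ, (∀ i, |y i| ≤ 2) →
    (∀ i, |y' i| ≤ 2) →
    (∀ i ≤ n, |zz D d v v' x y i| ≤ Real.exp (C₃ * z) * rd z v ^ d i) ∧
    ∀ δ : ℝ, 0 ≤ δ → ((∀ i ≤ n, |y i - y' i| ≤ δ) →
      ∀ i ≤ n, |zz D d v v' x y i - zz D d v v' x y' i| ≤ Real.exp (C₃ * z) * rd z v ^ d i * δ) ∧
      ((∀ i < n, |zz D d v v' x y i - zz D d v v' x y' i| ≤ rd z v ^ d i * δ) →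
      ∀ i < n, |y i - y' i| ≤ Real.exp (C₃ * z) * δ) := by
  obtain ⟨σ, hσ⟩ : ∃ σ : ℕ → ℝ, σ = fun i => (d i : ℝ) := ⟨_, rfl⟩
  have hS : Slp d σ n := ⟨hd0, hd, fun i _ => by rw [hσ], by rw [hσ], by rw [hσ]; linarith⟩
  obtain ⟨Cl, hCl, hlad⟩ := hL n K d σ C₂ hS hC₂
  obtain ⟨K', hK'⟩ := dgb_unif hD n K d hd0 hd
  obtain ⟨m, hm⟩ : ∃ m, m = (Finset.range (n + 1)).sup d := ⟨_, rfl⟩
  have hm' : ∀ i < n + 1, d i ≤ m := fun i hi => by
    rw [hm]
    exact Finset.le_sup (mem_range.2 hi)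
  obtain ⟨Dg, hDg⟩ : ∃ Dg, Dg = K * K' * m + m := ⟨_, rfl⟩
  have hDg0 : (0 : ℝ) ≤ Dg := Nat.cast_nonneg _
  -- the constants
  obtain ⟨a, ha⟩ : ∃ a, a = C₁ + 1 + Cl := ⟨_, rfl⟩
  have ha0 : 0 ≤ a := by rw [ha]; linarith
  obtain ⟨B₁, hB₁⟩ : ∃ B₁, B₁ = cst (1 + a + a) Dg (n + 1) := ⟨_, rfl⟩
  have hB₁0 : 0 ≤ B₁ := by rw [hB₁]; exact cst_nonneg (by linarith) _ _
  have hm0 : (0 : ℝ) ≤ m := Nat.cast_nonneg m
  obtain ⟨a₂, ha₂⟩ : ∃ a₂, a₂ = B₁ * m + Cl := ⟨_, rfl⟩
  have ha₂0 : 0 ≤ a₂ := by rw [ha₂]; positivity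
  obtain ⟨B₂, hB₂⟩ : ∃ B₂, B₂ = cst (1 + a₂ + a₂) Dg (n + 1) := ⟨_, rfl⟩
  have hB₂0 : 0 ≤ B₂ := by rw [hB₂]; exact cst_nonneg (by linarith) _ _
  obtain ⟨L₁, hL₁⟩ : ∃ L₁, L₁ = cs2 (1 + Dg + B₁ * Dg + a + a) (n + 1) := ⟨_, rfl⟩
  have hL₁0 : 0 ≤ L₁ := by rw [hL₁]; exact cs2_nonneg (by positivity) _
  obtain ⟨a₃, ha₃⟩ : ∃ a₃, a₃ = L₁ + a₂ := ⟨_, rfl⟩
  have ha₃0 : 0 ≤ a₃ := by rw [ha₃]; positivity
  obtain ⟨L₂, hL₂⟩ : ∃ L₂, L₂ = cs2 (1 + Dg + B₂ * Dg + a₃ + a₃) (n + 1) := ⟨_, rfl⟩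
  have hL₂0 : 0 ≤ L₂ := by rw [hL₂]; exact cs2_nonneg (by positivity) _
  obtain ⟨L₃, hL₃⟩ : ∃ L₃, L₃ = 1 + (Dg + B₂ * Dg + a₂) := ⟨_, rfl⟩
  have hL₃0 : 0 ≤ L₃ := by rw [hL₃]; positivity
  obtain ⟨L₄, hL₄⟩ : ∃ L₄, L₄ = 1 + (Dg + B₁ * Dg + a + L₃) := ⟨_, rfl⟩
  have hL₄0 : 0 ≤ L₄ := by rw [hL₄]; positivity
  have hB₂m : 0 ≤ B₂ * m := by positivity
  refine ⟨1 + B₂ * m + L₂ + L₄ + C₁, by linarith, fun N => ?_⟩
  choose zl hzl using hlad
  refine ⟨max 1 ((Finset.range (N + 1)).sup zl), ?_⟩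
  intro z D x v v' hz hvv hvN hGB y y' hy hy'
  have hz1 : 1 ≤ z := (le_max_left _ _).trans hz
  have hz0 : (0 : ℝ) ≤ z := Nat.cast_nonneg z
  have hzv : zl v' ≤ z := (Finset.le_sup (mem_range.2 (by omega))).trans
    ((le_max_right _ _).trans hz)
  obtain ⟨hLad, hBs, hg⟩ := hGB
  have hLad' : Lad d z σ C₂ v' (n + 1) (D.Φb x) := by
    rw [hσ]
    exact hLad
  obtain ⟨l1, l2⟩ := hzl v' z (D.Φb x) (n + 1) hzv le_rfl hBs hLad'
  have hρ := rd_pos z v
  have hev : ∀ (ρ : ℝ), 0 < ρ → ∀ (b : ℕ → ℝ) (F : PN), (∀ i ∈ F.vars, |b i| ≤ ρ ^ d i) →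
      |eval b F| ≤ nrm d ρ F := fun ρ hρ =>
    (hN d ρ hd hρ).2.2.2.2.2.2.2.2.2.2.2.2
  set Ψ := D.P v (x v) with hΨ
  set Ψ' := D.P v' (x v') with hΨ'
  have hΨe : D.Φb x v = Ψ := rfl
  have hΨe' : D.Φb x v' = Ψ' := rfl
  have htri : TriN Ψ := hBs.tri v hvv
  have htri' : TriN Ψ' := hBs.tri v' le_rfl
  obtain ⟨hχ, hχt, hinv, -, -, -, -, hnuc⟩ := hA.2 d Ψ hd0 hd htri
  obtain ⟨-, hχt', hinv', -⟩ := hA.2 d Ψ' hd0 hd htri'
  obtain ⟨hTt, hT1, hT2⟩ := hinv (adp d Ψ) hχt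
  obtain ⟨hTt', hT1', hT2'⟩ := hinv' (adp d Ψ') hχt'
  have hχv : ∀ i, (adp d Ψ i).vars ⊆ range (i + 1) := vars_of_tri hχt
  have hdeg := hK' Ψ (D.g v) (n + 1) le_rfl htri (hBs.deg v hvv)
  have hnu := (hnuc (D.g v)).1
  -- the polynomials of the first relation
  obtain ⟨G, hG⟩ : ∃ G : ℕ → PN, G = fun i => gew d (d i) (bind₁ (adp d Ψ) (Ψ i)) := ⟨_, rfl⟩
  have hGv0 : ∀ i, (bind₁ (adp d Ψ) (Ψ i)).vars ⊆ range i := fun i =>
    vars_bind (htri i) fun j _ => hχv j
  have hGv : ∀ i < n + 1, (G i).vars ⊆ range i := fun i _ => by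
    rw [hG]
    exact (vars_gew _ _ _).trans (hGv0 i)
  have hGw : ∀ i < n + 1, ∀ k ∈ (G i).support, Finsupp.weight d k ≤ Dg := by
    intro i hi k hk
    rw [hG] at hk
    have h1 := weight_le (n := n + 1) ((hGv0 i).trans (Finset.range_mono (by omega)))
      (totalDegree_bind (n := n + 1) ((htri i).trans (Finset.range_mono hi.le))
        (hBs.deg v hvv i hi) fun j hj => (hdeg j hj).1) hm' k (support_gew _ _ _ hk)
    rw [hDg]
    omega
  have hGn : ∀ i < n + 1, nrm d (rd z v) (G i) ≤ Real.exp (a * z) * rd z v ^ d i := by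
    intro i hi
    have h1 := (l1 v hvv i hi).2
    rw [hσ, Real.rpow_natCast] at h1
    rw [hG]
    refine h1.trans (mul_le_mul_of_nonneg_right (Real.exp_le_exp.2 ?_) (by positivity))
    exact mul_le_mul_of_nonneg_right (by rw [ha]; linarith) hz0
  -- the polynomials of the second relation
  obtain ⟨H, hH⟩ : ∃ H : ℕ → PN, H = fun i => bind₁ (adp d Ψ') (tinv (adp d Ψ) i) - X i := ⟨_, rfl⟩
  have hHall := l2 v' le_rfl v hvv
  have hHv : ∀ i < n + 1, (H i).vars ⊆ range i := fun i hi => by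
    rw [hH]
    exact (hHall i hi).1
  have hHw : ∀ i < n + 1, ∀ k ∈ (H i).support, Finsupp.weight d k ≤ Dg := by
    intro i hi k hk
    have h1 : trw d (d i) (H i) = H i := by
      rw [hH]
      exact (hHall i hi).2.1
    rw [← h1, mem_support_iff, coeff_trw] at hk
    have h2 : Finsupp.weight d k < d i := by
      by_contra h
      rw [if_neg h] at hk
      exact hk rfl
    have h3 := hm' i hi
    rw [hDg]
    omega
  have hHn : ∀ i < n + 1, nrm d (rd z v) (H i) ≤ Real.exp (a₂ * z) * rd z v ^ d i := by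
    intro i hi
    have h1 := (hHall i hi).2.2 v le_rfl
    have h2 : rd z v ^ ((d i : ℝ) - 1) * rd z v ^ (σ i - d i + 1) = rd z v ^ d i := by
      rw [← Real.rpow_add hρ, hσ]
      rw [show (d i : ℝ) - 1 + ((d i : ℝ) - d i + 1) = d i by ring, Real.rpow_natCast]
    rw [h2] at h1
    rw [hH]
    refine h1.trans (mul_le_mul_of_nonneg_right (Real.exp_le_exp.2 ?_) (by positivity))
    refine mul_le_mul_of_nonneg_right ?_ hz0
    rw [ha₂]
    have : 0 ≤ B₁ * m := by positivity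
    linarith
  -- the two relations
  have hrel : ∀ w : ℕ → ℝ, ∃ Y : ℕ → ℝ, (∀ i, Y i = 1 / 2 ^ D.g v i * w i + eval Y (G i)) ∧
      ∀ i, Y i = zz D d v v' x w i + eval (zz D d v v' x w) (H i) := by
    intro w
    obtain ⟨b, hb⟩ : ∃ b : ℕ → ℝ, b = fun j => eval w (nuc (D.g v) Ψ j) := ⟨_, rfl⟩
    obtain ⟨Y, hYd⟩ : ∃ Y : ℕ → ℝ, Y = fun j => eval b (tinv (adp d Ψ) j) := ⟨_, rfl⟩
    have hbY : b = fun i => eval Y (adp d Ψ i) := by
      funext i
      have h1 := congrArg (eval b) (hT1 i)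
      rw [eval_bind, eval_X] at h1
      rw [hYd]
      exact h1.symm
    have hzz : zz D d v v' x w = fun j => eval b (tinv (adp d Ψ') j) := by
      funext j
      unfold zz
      rw [hb]
    have hbZ : b = fun i => eval (zz D d v v' x w) (adp d Ψ' i) := by
      funext i
      have h1 := congrArg (eval b) (hT1' i)
      rw [eval_bind, eval_X] at h1
      rw [hzz]
      exact h1.symm
    refine ⟨Y, fun i => ?_, fun i => ?_⟩
    · have e0 : b i = eval b (Ψ i) + 1 / 2 ^ D.g v i * w i := by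
        have h1 := congrArg (eval w) (hnu i)
        rw [map_add, eval_bind, map_mul, eval_C, eval_X] at h1
        rw [hb]
        exact h1
      have e1 : b i = Y i + eval Y (trw d (d i) (bind₁ (adp d Ψ) (Ψ i))) := by
        rw [congrFun hbY i, hχ, map_add, eval_X]
      have e2 : eval b (Ψ i) = eval Y (bind₁ (adp d Ψ) (Ψ i)) := by
        rw [eval_bind, ← hbY]
      have e3 : eval Y (bind₁ (adp d Ψ) (Ψ i)) =
          eval Y (trw d (d i) (bind₁ (adp d Ψ) (Ψ i))) + eval Y (G i) := by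
        rw [← map_add, hG]
        congr 1
        unfold gew
        ring
      linarith
    · rw [hH]
      rw [map_sub, eval_X, eval_bind, ← hbZ, hYd]
      ring
  obtain ⟨Y, hY1, hY2⟩ := hrel y
  obtain ⟨W, hW1, hW2⟩ := hrel y'
  obtain ⟨Z, hZ⟩ : ∃ Z, Z = zz D d v v' x y := ⟨_, rfl⟩
  obtain ⟨Z', hZ'⟩ : ∃ Z', Z' = zz D d v v' x y' := ⟨_, rfl⟩
  rw [← hZ] at hY2 ⊢
  rw [← hZ'] at hW2 ⊢
  -- natural precisions
  have hgn : ∀ i < n + 1, 1 / (2 : ℝ) ^ D.g v i ≤ Real.exp (C₁ * z) * rd z v ^ d i ∧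
      Real.exp (-(C₁ * z)) * rd z v ^ d i ≤ 1 / (2 : ℝ) ^ D.g v i := fun i hi =>
    rd_cmp (by linarith) (hg v hvv i (by omega))
  have hnat : ∀ w : ℕ → ℝ, (∀ i, |w i| ≤ 2) → ∀ i < n + 1,
      |1 / 2 ^ D.g v i * w i| ≤ Real.exp (a * z) * rd z v ^ d i := by
    intro w hw i hi
    rw [abs_mul, abs_of_pos (by positivity : (0 : ℝ) < 1 / 2 ^ D.g v i)]
    calc 1 / (2 : ℝ) ^ D.g v i * |w i| ≤ (Real.exp (C₁ * z) * rd z v ^ d i) * Real.exp z :=
          mul_le_mul (hgn i hi).1 ((hw i).trans (two_le_exp hz1)) (abs_nonneg _) (by positivity)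
      _ = Real.exp ((C₁ + 1) * z) * rd z v ^ d i := by
          rw [show (C₁ + 1) * (z : ℝ) = C₁ * z + z by ring, Real.exp_add]
          ring
      _ ≤ Real.exp (a * z) * rd z v ^ d i := by
          refine mul_le_mul_of_nonneg_right (Real.exp_le_exp.2 ?_) (by positivity)
          exact mul_le_mul_of_nonneg_right (by rw [ha]; linarith) hz0
  have hYb : ∀ (Y w : ℕ → ℝ), (∀ i, |w i| ≤ 2) →
      (∀ i, Y i = 1 / 2 ^ D.g v i * w i + eval Y (G i)) →
      ∀ i < n + 1, |Y i| ≤ (Real.exp (B₁ * z) * rd z v) ^ d i := by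
    intro Y w hw hYr i hi
    rw [hB₁]
    refine tri_bound hd hz1 hρ ha0 hGv hGw hGn hev (fun i hi => ?_) (n + 1) le_rfl i hi
    have h1 := hYr i
    calc |Y i| = |1 / 2 ^ D.g v i * w i + eval Y (G i)| := by rw [← h1]
      _ ≤ |1 / 2 ^ D.g v i * w i| + |eval Y (G i)| := abs_add_le _ _
      _ ≤ _ := by linarith [hnat w hw i hi]
  have hYbd := hYb Y y hy hY1
  have hWbd := hYb W y' hy' hW1
  have hB₁e : ∀ i < n + 1, (Real.exp (B₁ * z) * rd z v) ^ d i ≤
      Real.exp (B₁ * m * z) * rd z v ^ d i := by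
    intro i hi
    rw [mul_pow, ← Real.exp_nat_mul]
    refine mul_le_mul_of_nonneg_right (Real.exp_le_exp.2 ?_) (by positivity)
    have h1 : ((d i : ℕ) : ℝ) ≤ m := by exact_mod_cast hm' i hi
    have h2 : 0 ≤ B₁ * z := by positivity
    nlinarith
  have hZb : ∀ (Y Z : ℕ → ℝ), (∀ i < n + 1, |Y i| ≤ (Real.exp (B₁ * z) * rd z v) ^ d i) →
      (∀ i, Y i = Z i + eval Z (H i)) →
      ∀ i < n + 1, |Z i| ≤ (Real.exp (B₂ * z) * rd z v) ^ d i := by
    intro Y Z hYb hYr i hi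
    rw [hB₂]
    refine tri_bound hd hz1 hρ ha₂0 hHv hHw hHn hev (fun i hi => ?_) (n + 1) le_rfl i hi
    have h1 : Z i = Y i - eval Z (H i) := by
      rw [hYr i]
      ring
    have h2 : |Z i| ≤ |Y i| + |eval Z (H i)| := by
      calc |Z i| = |Y i - eval Z (H i)| := by rw [← h1]
        _ ≤ _ := abs_sub _ _
    have h3 : Real.exp (B₁ * m * z) * rd z v ^ d i ≤ Real.exp (a₂ * z) * rd z v ^ d i := by
      refine mul_le_mul_of_nonneg_right (Real.exp_le_exp.2 ?_) (by positivity)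
      exact mul_le_mul_of_nonneg_right (by rw [ha₂]; linarith) hz0
    linarith [hYb i hi, hB₁e i hi]
  have hZbd := hZb Y Z hYbd hY2
  have hZ'bd := hZb W Z' hWbd hW2
  refine ⟨fun i hi => ?_, fun δ hδ => ⟨fun hyy i hi => ?_, fun hZZ i hi => ?_⟩⟩
  · refine (hZbd i (by omega)).trans ?_
    rw [mul_pow, ← Real.exp_nat_mul]
    refine mul_le_mul_of_nonneg_right (Real.exp_le_exp.2 ?_) (by positivity)
    have h1 : ((d i : ℕ) : ℝ) ≤ m := by exact_mod_cast hm' i (by omega)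
    have h2 : ((d i : ℕ) : ℝ) * B₂ ≤ B₂ * m := by nlinarith
    calc ((d i : ℕ) : ℝ) * (B₂ * z) = ((d i : ℕ) : ℝ) * B₂ * z := by ring
      _ ≤ (1 + B₂ * m + L₂ + L₄ + C₁) * z := mul_le_mul_of_nonneg_right (by linarith) hz0
  · -- Lipschitz
    have hYY : ∀ i < n + 1, |Y i - W i| ≤ Real.exp (L₁ * z) * rd z v ^ d i * δ := by
      intro i hi
      have h1 := tri_lip hd hz1 hρ ha0 hB₁0 hδ hGv hGw hGn hYbd hWbd (fun i hi => by
        have h2 : Y i - W i = 1 / 2 ^ D.g v i * (y i - y' i) + (eval Y (G i) - eval W (G i)) := by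
          have h3 := hY1 i
          have h4 := hW1 i
          linear_combination h3 - h4
        have h5 : |1 / 2 ^ D.g v i * (y i - y' i)| ≤ Real.exp (a * z) * rd z v ^ d i * δ := by
          rw [abs_mul, abs_of_pos (by positivity : (0 : ℝ) < 1 / 2 ^ D.g v i)]
          refine mul_le_mul ?_ (hyy i (by omega)) (abs_nonneg _) (by positivity)
          refine (hgn i hi).1.trans ?_
          refine mul_le_mul_of_nonneg_right (Real.exp_le_exp.2 ?_) (by positivity)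
          exact mul_le_mul_of_nonneg_right (by rw [ha]; linarith) hz0
        calc |Y i - W i| ≤ |1 / 2 ^ D.g v i * (y i - y' i)| + |eval Y (G i) - eval W (G i)| := by
              rw [h2]
              exact abs_add_le _ _
          _ ≤ _ := by linarith) i hi
      refine h1.trans (mul_le_mul_of_nonneg_right (mul_le_mul_of_nonneg_right
        (Real.exp_le_exp.2 (mul_le_mul_of_nonneg_right ?_ hz0)) (by positivity)) hδ)
      rw [hL₁]
      exact cs2_mono (by positivity) hi.le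
    have hHn' : ∀ i < n + 1, nrm d (rd z v) (H i) ≤ Real.exp (a₃ * z) * rd z v ^ d i := by
      intro i hi
      refine (hHn i hi).trans (mul_le_mul_of_nonneg_right (Real.exp_le_exp.2 ?_) (by positivity))
      exact mul_le_mul_of_nonneg_right (by rw [ha₃]; linarith) hz0
    have h1 := tri_lip hd hz1 hρ ha₃0 hB₂0 hδ hHv hHw hHn' hZbd hZ'bd (fun i hi => by
      have h2 : Z i - Z' i = (Y i - W i) - (eval Z (H i) - eval Z' (H i)) := by
        have h3 := hY2 i
        have h4 := hW2 i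
        linear_combination h4 - h3
      have h5 : Real.exp (L₁ * z) * rd z v ^ d i * δ ≤ Real.exp (a₃ * z) * rd z v ^ d i * δ := by
        refine mul_le_mul_of_nonneg_right (mul_le_mul_of_nonneg_right (Real.exp_le_exp.2 ?_)
          (by positivity)) hδ
        exact mul_le_mul_of_nonneg_right (by rw [ha₃]; linarith) hz0
      calc |Z i - Z' i| ≤ |Y i - W i| + |eval Z (H i) - eval Z' (H i)| := by
            rw [h2]
            exact abs_sub _ _
        _ ≤ _ := by linarith [hYY i hi]) i (by omega)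
    refine h1.trans (mul_le_mul_of_nonneg_right (mul_le_mul_of_nonneg_right
      (Real.exp_le_exp.2 (mul_le_mul_of_nonneg_right ?_ hz0)) (by positivity)) hδ)
    have h2 : cs2 (1 + Dg + B₂ * Dg + a₃ + a₃) i ≤ L₂ := by
      rw [hL₂]
      exact cs2_mono (by positivity) (by omega)
    linarith
  · -- inverse Lipschitz
    have hYY : ∀ i < n, |Y i - W i| ≤ Real.exp (L₃ * z) * rd z v ^ d i * δ := by
      intro i hi
      have h2 : Y i - W i = (Z i - Z' i) + (eval Z (H i) - eval Z' (H i)) := by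
        have h3 := hY2 i
        have h4 := hW2 i
        linear_combination h3 - h4
      have h0 : ∀ j ∈ (H i).vars, j < i := fun j hj => mem_range.1 (hHv i (by omega) hj)
      have h3 := lip_step hd (c := 0) (i := i) hz1 hρ hB₂0 hδ (hHw i (by omega)) (hHn i (by omega))
        (fun j hj => hZbd j (by have := h0 j hj; omega))
        (fun j hj => hZ'bd j (by have := h0 j hj; omega)) (fun j hj => by
          rw [zero_mul, Real.exp_zero, one_mul]
          exact hZZ j (by have := h0 j hj; omega))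
      have h4 : (1 : ℝ) ≤ Real.exp ((Dg + B₂ * Dg + a₂ + 0) * z) :=
        Real.one_le_exp (by positivity)
      have h5 : 0 ≤ rd z v ^ d i * δ := by positivity
      calc |Y i - W i| ≤ |Z i - Z' i| + |eval Z (H i) - eval Z' (H i)| := by
            rw [h2]
            exact abs_add_le _ _
        _ ≤ 1 * (rd z v ^ d i * δ) + Real.exp ((Dg + B₂ * Dg + a₂ + 0) * z) * (rd z v ^ d i * δ) := by
            have := hZZ i hi
            linarith
        _ ≤ 2 * Real.exp ((Dg + B₂ * Dg + a₂ + 0) * z) * (rd z v ^ d i * δ) := by nlinarith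
        _ ≤ Real.exp z * Real.exp ((Dg + B₂ * Dg + a₂ + 0) * z) * (rd z v ^ d i * δ) := by
            refine mul_le_mul_of_nonneg_right ?_ h5
            exact mul_le_mul_of_nonneg_right (two_le_exp hz1) (Real.exp_pos _).le
        _ = Real.exp (L₃ * z) * rd z v ^ d i * δ := by
            rw [← Real.exp_add, hL₃]
            rw [show (z : ℝ) + (Dg + B₂ * Dg + a₂ + 0) * z = (1 + (Dg + B₂ * Dg + a₂)) * z by ring]
            ring
    have h2 : 1 / 2 ^ D.g v i * (y i - y' i) = (Y i - W i) - (eval Y (G i) - eval W (G i)) := by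
      have h3 := hY1 i
      have h4 := hW1 i
      linear_combination h4 - h3
    have h0 : ∀ j ∈ (G i).vars, j < i := fun j hj => mem_range.1 (hGv i (by omega) hj)
    have h3 := lip_step hd (c := L₃) (i := i) hz1 hρ hB₁0 hδ (hGw i (by omega)) (hGn i (by omega))
      (fun j hj => hYbd j (by have := h0 j hj; omega))
      (fun j hj => hWbd j (by have := h0 j hj; omega))
      (fun j hj => hYY j (by have := h0 j hj; omega))
    have h5 : 0 ≤ rd z v ^ d i * δ := by positivity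
    have h6 : Real.exp (L₃ * z) ≤ Real.exp ((Dg + B₁ * Dg + a + L₃) * z) := by
      refine Real.exp_le_exp.2 (mul_le_mul_of_nonneg_right ?_ hz0)
      have : 0 ≤ (Dg : ℝ) + B₁ * Dg + a := by positivity
      linarith
    have h7 : |1 / 2 ^ D.g v i * (y i - y' i)| ≤ Real.exp (L₄ * z) * (rd z v ^ d i * δ) := by
      calc |1 / 2 ^ D.g v i * (y i - y' i)| ≤ |Y i - W i| + |eval Y (G i) - eval W (G i)| := by
            rw [h2]
            exact abs_sub _ _
        _ ≤ Real.exp (L₃ * z) * (rd z v ^ d i * δ) +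
            Real.exp ((Dg + B₁ * Dg + a + L₃) * z) * (rd z v ^ d i * δ) := by
            have := hYY i hi
            linarith
        _ ≤ 2 * Real.exp ((Dg + B₁ * Dg + a + L₃) * z) * (rd z v ^ d i * δ) := by nlinarith
        _ ≤ Real.exp z * Real.exp ((Dg + B₁ * Dg + a + L₃) * z) * (rd z v ^ d i * δ) := by
            refine mul_le_mul_of_nonneg_right ?_ h5
            exact mul_le_mul_of_nonneg_right (two_le_exp hz1) (Real.exp_pos _).le
        _ = Real.exp (L₄ * z) * (rd z v ^ d i * δ) := by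
            rw [← Real.exp_add, hL₄]
            rw [show (z : ℝ) + (Dg + B₁ * Dg + a + L₃) * z = (1 + (Dg + B₁ * Dg + a + L₃)) * z by
              ring]
    rw [abs_mul, abs_of_pos (by positivity : (0 : ℝ) < 1 / 2 ^ D.g v i)] at h7
    have h8 : Real.exp (-(C₁ * z)) * rd z v ^ d i * |y i - y' i| ≤
        Real.exp (L₄ * z) * (rd z v ^ d i * δ) :=
      (mul_le_mul_of_nonneg_right (hgn i (by omega)).2 (abs_nonneg _)).trans h7
    have h9 : |y i - y' i| ≤ Real.exp ((L₄ + C₁) * z) * δ := by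
      have hr : 0 < rd z v ^ d i := by positivity
      have h10 : rd z v ^ d i * (Real.exp (-(C₁ * z)) * |y i - y' i|) ≤
          rd z v ^ d i * (Real.exp (L₄ * z) * δ) := by
        calc _ = Real.exp (-(C₁ * z)) * rd z v ^ d i * |y i - y' i| := by ring
          _ ≤ _ := h8
          _ = _ := by ring
      have h11 := le_of_mul_le_mul_left h10 hr
      have h12 : |y i - y' i| = Real.exp (C₁ * z) * (Real.exp (-(C₁ * z)) * |y i - y' i|) := by
        rw [← mul_assoc, ← Real.exp_add, add_neg_cancel, Real.exp_zero, one_mul]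
      rw [h12]
      calc Real.exp (C₁ * z) * (Real.exp (-(C₁ * z)) * |y i - y' i|) ≤
          Real.exp (C₁ * z) * (Real.exp (L₄ * z) * δ) :=
            mul_le_mul_of_nonneg_left h11 (Real.exp_pos _).le
        _ = Real.exp ((L₄ + C₁) * z) * δ := by
            rw [show (L₄ + C₁) * (z : ℝ) = C₁ * z + L₄ * z by ring, Real.exp_add]
            ring
    refine h9.trans (mul_le_mul_of_nonneg_right (Real.exp_le_exp.2
      (mul_le_mul_of_nonneg_right ?_ hz0)) hδ)
    linarith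

theorem ext_le {n : ℕ} {y : Fin n → ℝ} {a : ℝ} (ha : 0 ≤ a) (h : ∀ i, |y i| ≤ a) (j : ℕ) :
    |ext y j| ≤ a := by
  unfold Pool.STAT.ext
  split_ifs with h1
  · exact h _
  · rw [abs_zero]
    exact ha

theorem ext_sub_le {n : ℕ} {y y' : Fin n → ℝ} {a : ℝ} (ha : 0 ≤ a) (h : ∀ i, |y i - y' i| ≤ a)
    (j : ℕ) : |ext y j - ext y' j| ≤ a := by
  unfold Pool.STAT.ext
  split_ifs with h1
  · exact h _
  · rw [sub_self, abs_zero]
    exact ha

/-- The height of the point of the label. -/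
theorem ab_height (hA : AdxStmt) {d : ℕ → ℕ} (hd0 : d 0 = 1) (hd : ∀ i, 1 ≤ d i) (D : NDat)
    {v n : ℕ} {x : ℕ → D.Γ} (h : TriN (D.P v (x v))) (y : Fin n → ℝ) :
    D.ab v x y n = eval (D.ab v x y) (D.P v (x v) n) := by
  obtain ⟨-, -, -, -, -, -, -, hnuc⟩ := hA.2 d (D.P v (x v)) hd0 hd h
  have h1 := congrArg (eval (ext y)) ((hnuc (D.g v)).1 n)
  rw [map_add, eval_bind, map_mul, eval_X] at h1
  have h2 : ext y n = 0 := by
    unfold Pool.STAT.ext
    rw [dif_neg (lt_irrefl n)]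
  rw [h2, mul_zero, add_zero] at h1
  exact h1

/-- **Row 114.** -/
theorem nat_of (hA : AdxStmt) (hD : DgbStmt) (hN : NrmStmt) (hL : LadStmt) : NatStmt := by
  classical
  intro n K d C₁ C₂ hn hd0 hd hC₁ hC₂
  obtain ⟨C₃, hC₃, hc⟩ := nat_core hA hD hN hL n K d C₁ C₂ hd0 hd hC₁ hC₂
  refine ⟨C₃, hC₃, fun U M => ?_⟩
  obtain ⟨z₀, hz₀⟩ := hc M
  refine ⟨max 1 z₀, ?_⟩
  intro z k D x hz hk y y' hy hy'
  have hz1 : 1 ≤ z := (le_max_left _ _).trans hz
  have hz0 : (0 : ℝ) ≤ z := Nat.cast_nonneg z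
  have hE2 : (2 : ℝ) ≤ Real.exp (C₃ * z) := by
    refine (two_le_exp hz1).trans (Real.exp_le_exp.2 ?_)
    nlinarith
  by_cases hGB : D.GB K d z C₁ C₂ (k + 3 * U) n x
  · have h := hz₀ z D x (k + U) (k + 3 * U) ((le_max_right _ _).trans hz) (by omega) hk hGB
      (ext y) (ext y') (ext_le (by norm_num) hy) (ext_le (by norm_num) hy')
    obtain ⟨h1, h2⟩ := h
    have htri : TriN (D.P (k + U) (x (k + U))) := hGB.2.1.tri (k + U) (by omega)
    have hρe : ∀ i : ℕ, (2 : ℝ) ^ (d i * ((k + U) * z)) * rd z (k + U) ^ d i = 1 := by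
      intro i
      rw [rd_pow]
      field_simp
    have hT : ∀ (w : Fin n → ℝ) (i : Fin n), D.thT K d z C₁ C₂ (k + U) (k + 3 * U) x w i =
        (2 : ℝ) ^ (d i * ((k + U) * z)) * zz D d (k + U) (k + 3 * U) x (ext w) i := by
      intro w i
      unfold NDat.thT zz
      rw [if_pos hGB]
      rfl
    have hSh : ∀ w : Fin n → ℝ, D.shN K d z C₁ C₂ (k + U) (k + 3 * U) x w =
        -((2 : ℝ) ^ (d n * ((k + U) * z)) * zz D d (k + U) (k + 3 * U) x (ext w) n) := by
      intro w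
      unfold NDat.shN zz
      rw [if_pos hGB, map_sub, map_sub, eval_X, ab_height hA hd0 hd D htri w]
      change (2 : ℝ) ^ (d n * ((k + U) * z)) * (eval (D.ab (k + U) x w) (D.P (k + U) (x (k + U)) n) -
        eval (D.ab (k + U) x w) (tinv (adp d (D.P (k + 3 * U) (x (k + 3 * U)))) n) -
        eval (D.ab (k + U) x w) (D.P (k + U) (x (k + U)) n)) =
        -((2 : ℝ) ^ (d n * ((k + U) * z)) *
          eval (D.ab (k + U) x w) (tinv (adp d (D.P (k + 3 * U) (x (k + 3 * U)))) n))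
      ring
    have hdiff : ∀ (w w' : Fin n → ℝ) (i : ℕ) (A : ℝ),
        |zz D d (k + U) (k + 3 * U) x (ext w) i - zz D d (k + U) (k + 3 * U) x (ext w') i| ≤
          rd z (k + U) ^ d i * A →
        |(2 : ℝ) ^ (d i * ((k + U) * z)) * zz D d (k + U) (k + 3 * U) x (ext w) i -
          (2 : ℝ) ^ (d i * ((k + U) * z)) * zz D d (k + U) (k + 3 * U) x (ext w') i| ≤ A := by
      intro w w' i A h
      rw [← mul_sub, abs_mul, abs_of_pos (by positivity)]
      calc (2 : ℝ) ^ (d i * ((k + U) * z)) * _ ≤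
          (2 : ℝ) ^ (d i * ((k + U) * z)) * (rd z (k + U) ^ d i * A) :=
            mul_le_mul_of_nonneg_left h (by positivity)
        _ = A := by rw [← mul_assoc, hρe, one_mul]
    refine ⟨fun i => ?_, fun δ => ⟨fun hyy => ⟨fun i => ?_, ?_⟩, fun hTT i => ?_⟩⟩
    · rw [hT, abs_mul, abs_of_pos (by positivity)]
      calc (2 : ℝ) ^ (d i * ((k + U) * z)) * _ ≤
          (2 : ℝ) ^ (d i * ((k + U) * z)) * (Real.exp (C₃ * z) * rd z (k + U) ^ d i) :=
            mul_le_mul_of_nonneg_left (h1 i i.2.le) (by positivity)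
        _ = Real.exp (C₃ * z) * ((2 : ℝ) ^ (d i * ((k + U) * z)) * rd z (k + U) ^ d i) := by ring
        _ = Real.exp (C₃ * z) := by rw [hρe, mul_one]
    · have hδ : 0 ≤ δ := (abs_nonneg _).trans (hyy i)
      have h3 := (h2 δ hδ).1 (fun j _ => ext_sub_le hδ hyy j) i i.2.le
      rw [hT, hT]
      exact hdiff y y' i _ (h3.trans (le_of_eq (by ring)))
    · have hδ : 0 ≤ δ := (abs_nonneg _).trans (hyy ⟨0, hn⟩)
      have h3 := (h2 δ hδ).1 (fun j _ => ext_sub_le hδ hyy j) n le_rfl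
      rw [hSh, hSh, neg_sub_neg, abs_sub_comm]
      exact hdiff y y' n _ (h3.trans (le_of_eq (by ring)))
    · have hδ : 0 ≤ δ := (abs_nonneg _).trans (hTT i)
      have h3 := (h2 δ hδ).2 (fun j hj => by
        have h4 := hTT ⟨j, hj⟩
        rw [hT, hT] at h4
        change |(2 : ℝ) ^ (d j * ((k + U) * z)) * zz D d (k + U) (k + 3 * U) x (ext y) j -
          (2 : ℝ) ^ (d j * ((k + U) * z)) * zz D d (k + U) (k + 3 * U) x (ext y') j| ≤ δ at h4
        rw [← mul_sub, abs_mul, abs_of_pos (by positivity)] at h4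
        calc |zz D d (k + U) (k + 3 * U) x (ext y) j - zz D d (k + U) (k + 3 * U) x (ext y') j| =
            ((2 : ℝ) ^ (d j * ((k + U) * z)) * rd z (k + U) ^ d j) *
            |zz D d (k + U) (k + 3 * U) x (ext y) j - zz D d (k + U) (k + 3 * U) x (ext y') j| := by
              rw [hρe, one_mul]
          _ = rd z (k + U) ^ d j * ((2 : ℝ) ^ (d j * ((k + U) * z)) *
            |zz D d (k + U) (k + 3 * U) x (ext y) j -
              zz D d (k + U) (k + 3 * U) x (ext y') j|) := by ring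
          _ ≤ rd z (k + U) ^ d j * δ := mul_le_mul_of_nonneg_left h4 (pow_pos (rd_pos _ _) _).le) i i.2
      have h5 : ∀ w : Fin n → ℝ, ext w (i : ℕ) = w i := by
        intro w
        unfold Pool.STAT.ext
        rw [dif_pos i.2]
      rwa [h5, h5] at h3
  · have hT : ∀ (w : Fin n → ℝ) (i : Fin n), D.thT K d z C₁ C₂ (k + U) (k + 3 * U) x w i = w i := by
      intro w i
      unfold NDat.thT
      rw [if_neg hGB]
    have hSh : ∀ w : Fin n → ℝ, D.shN K d z C₁ C₂ (k + U) (k + 3 * U) x w = 0 := by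
      intro w
      unfold NDat.shN
      rw [if_neg hGB]
    have h1 : ∀ δ : ℝ, 0 ≤ δ → δ ≤ Real.exp (C₃ * z) * δ := fun δ hδ => by nlinarith
    refine ⟨fun i => ?_, fun δ => ⟨fun hyy => ⟨fun i => ?_, ?_⟩, fun hTT i => ?_⟩⟩
    · rw [hT]
      exact (hy i).trans hE2
    · rw [hT, hT]
      exact (hyy i).trans (h1 δ ((abs_nonneg _).trans (hyy i)))
    · rw [hSh, hSh, sub_zero, abs_zero]
      have hδ : 0 ≤ δ := (abs_nonneg _).trans (hyy ⟨0, hn⟩)
      positivity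
    · have h2 := hTT i
      rw [hT, hT] at h2
      exact h2.trans (h1 δ ((abs_nonneg _).trans h2))

end Pool.SYS35
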