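import Pool.Agent.H35.SYS.Base

/-!
# Row 107 BXN: natural boxes and weighted norms in adapted coordinates
-/

set_option autoImplicit false

namespace Pool.SYS35

open Finset MvPolynomial Pool.STAT

/-- The degree of a substitution. -/
theorem totalDegree_bind {f : ℕ → PN} {F : PN} {n K K' : ℕ} (hv : F.vars ⊆ range n)
    (hF : F.totalDegree ≤ K) (hf : ∀ i < n, (f i).totalDegree ≤ K') :
    (bind₁ f F).totalDegree ≤ K * K' := by
  rw [show bind₁ f F = ∑ k ∈ F.support, C (coeff k F) * ∏ i ∈ k.support, f i ^ k i by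
    rw [bind₁, aeval_def, eval₂_eq]; rfl]
  refine totalDegree_finsetSum_le fun k hk => ?_
  refine (totalDegree_mul _ _).trans ?_
  rw [totalDegree_C, zero_add]
  refine (totalDegree_finsetProd _ _).trans ?_
  calc ∑ i ∈ k.support, (f i ^ k i).totalDegree ≤ ∑ i ∈ k.support, k i * K' := by
        refine Finset.sum_le_sum fun i hi => ?_
        exact (totalDegree_pow _ _).trans
          (Nat.mul_le_mul_left _ (hf i (vars_of_mem hv hk hi)))
    _ = (∑ i ∈ k.support, k i) * K' := by rw [Finset.sum_mul]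
    _ ≤ K * K' := Nat.mul_le_mul_right _ ((le_totalDegree hk).trans hF)

/-- The variables of a substitution of a triangular map. -/
theorem vars_bind {f : ℕ → PN} {F : PN} {n : ℕ} (hv : F.vars ⊆ range n)
    (hf : ∀ i < n, (f i).vars ⊆ range (i + 1)) : (bind₁ f F).vars ⊆ range n := by
  classical
  refine (vars_bind₁ f F).trans ?_
  intro j hj
  rw [Finset.mem_biUnion] at hj
  obtain ⟨i, hi, hij⟩ := hj
  have h1 := mem_range.1 (hv hi)
  have h2 := mem_range.1 (hf i h1 hij)
  exact mem_range.2 (by omega)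

theorem vars_of_tri {f : ℕ → PN} (h : TriN fun i => f i - X i) (i : ℕ) :
    (f i).vars ⊆ range (i + 1) := by
  classical
  have h1 : f i = (f i - X i) + X i := by ring
  rw [h1]
  refine (vars_add_subset _ _).trans (Finset.union_subset ?_ ?_)
  · exact (h i).trans (Finset.range_mono (Nat.le_succ i))
  · rw [vars_X]
    intro j hj
    rw [Finset.mem_singleton.1 hj]
    exact mem_range.2 (Nat.lt_succ_self i)

/-- The norm at a smaller scale, for weights at least `r`. -/
theorem nrm_shrink {d : ℕ → ℕ} {r : ℕ} {F : PN} (h : ∀ k ∈ F.support, r ≤ Finsupp.weight d k)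
    {t ρ : ℝ} (ht : 0 ≤ t) (ht1 : t ≤ 1) (hρ : 0 ≤ ρ) :
    nrm d (t * ρ) F ≤ t ^ r * nrm d ρ F := by
  unfold nrm
  rw [Finset.mul_sum]
  refine Finset.sum_le_sum fun k hk => ?_
  rw [mul_pow]
  calc |F.coeff k| * (t ^ Finsupp.weight d k * ρ ^ Finsupp.weight d k) =
      t ^ Finsupp.weight d k * (|F.coeff k| * ρ ^ Finsupp.weight d k) := by ring
    _ ≤ t ^ r * (|F.coeff k| * ρ ^ Finsupp.weight d k) :=
      mul_le_mul_of_nonneg_right (pow_le_pow_of_le_one ht ht1 (h k hk))
        (mul_nonneg (abs_nonneg _) (pow_nonneg hρ _))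

theorem weight_gew {d : ℕ → ℕ} {r : ℕ} {F : PN} :
    ∀ k ∈ (gew d r F).support, r ≤ Finsupp.weight d k := by
  intro k hk
  rw [mem_support_iff, coeff_gew] at hk
  by_contra h
  rw [if_pos (not_le.1 h)] at hk
  exact hk rfl

/-- Comparison of powers of two. -/
theorem two_pow_cmp {g a : ℕ} {c : ℝ} (hc : 0 ≤ c) (h : |(g : ℝ) - a| ≤ c) :
    1 / (2 : ℝ) ^ g ≤ Real.exp c * (1 / 2 ^ a) ∧ Real.exp (-c) * (1 / 2 ^ a) ≤ 1 / (2 : ℝ) ^ g := by
  have hl : Real.log 2 ≤ 1 := by
    have := Real.log_two_lt_d9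
    linarith
  have hl0 : 0 < Real.log 2 := Real.log_pos one_lt_two
  have e : ∀ k : ℕ, 1 / (2 : ℝ) ^ k = Real.exp (-(k * Real.log 2)) := by
    intro k
    rw [Real.exp_neg, ← Real.log_pow, Real.exp_log (by positivity), one_div]
  rw [abs_le] at h
  rw [e g, e a, ← Real.exp_add, ← Real.exp_add]
  constructor
  · refine Real.exp_le_exp.2 ?_
    nlinarith [h.1, h.2]
  · refine Real.exp_le_exp.2 ?_
    nlinarith [h.1, h.2]

theorem rd_pos (z k : ℕ) : 0 < rd z k := by
  unfold rd
  positivity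

theorem rd_pow (z k e : ℕ) : rd z k ^ e = 1 / (2 : ℝ) ^ (e * (k * z)) := by
  unfold rd
  rw [one_div_pow, ← pow_mul, mul_comm]

/-- `rd z N ^ d i` against the natural precision. -/
theorem rd_cmp {z N e g : ℕ} {C₁ : ℝ} (hC : 0 ≤ C₁) (h : |(g : ℝ) - e * (N * z)| ≤ C₁ * z) :
    1 / (2 : ℝ) ^ g ≤ Real.exp (C₁ * z) * rd z N ^ e ∧
      Real.exp (-(C₁ * z)) * rd z N ^ e ≤ 1 / (2 : ℝ) ^ g := by
  rw [rd_pow]
  refine two_pow_cmp (by positivity) ?_
  push_cast
  exact h

theorem two_le_exp {z : ℕ} (hz : 1 ≤ z) : (2 : ℝ) ≤ Real.exp z := by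
  have h1 : (1 : ℝ) ≤ z := by exact_mod_cast hz
  have h2 := Real.add_one_le_exp (z : ℝ)
  linarith

theorem le_exp_mul {z : ℕ} (hz : 1 ≤ z) {c : ℝ} (hc : 0 ≤ c) : c ≤ Real.exp (c * z) := by
  have h1 : (1 : ℝ) ≤ z := by exact_mod_cast hz
  have h2 := Real.add_one_le_exp (c * (z : ℝ))
  nlinarith

/-- The degrees of the adapted coordinates, uniform in the number of coordinates. -/
theorem dgb_unif (h : DgbStmt) (n K : ℕ) (d : ℕ → ℕ) (hd0 : d 0 = 1) (hd : ∀ i, 1 ≤ d i) :
    ∃ K' : ℕ, ∀ (Φ : ℕ → PN) (g : ℕ → ℕ) (n' : ℕ), n' ≤ n + 1 → TriN Φ →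
      (∀ i < n', (Φ i).totalDegree ≤ K) → ∀ i < n', (adp d Φ i).totalDegree ≤ K' ∧
      (tinv (adp d Φ) i).totalDegree ≤ K' ∧ (fld d Φ i).totalDegree ≤ K' ∧
      (nuc g Φ i).totalDegree ≤ K' := by
  choose K' hK' using fun n => h n K d hd0 hd
  refine ⟨(Finset.range (n + 1)).sup K', fun Φ g n' hn' hΦ hdeg i hi => ?_⟩
  have h1 := hK' i Φ g hΦ (fun j hj => hdeg j (by omega)) i le_rfl
  have h2 : K' i ≤ (Finset.range (n + 1)).sup K' := Finset.le_sup (mem_range.2 (by omega))
  exact ⟨h1.1.trans h2, h1.2.1.trans h2, h1.2.2.1.trans h2, h1.2.2.2.trans h2⟩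

/-- The constants of the induction over the coordinates. -/
noncomputable def cst (A : ℝ) (D : ℕ) : ℕ → ℝ
  | 0 => 0
  | i + 1 => A + D * cst A D i + cst A D i

theorem cst_nonneg {A : ℝ} (hA : 0 ≤ A) (D : ℕ) (i : ℕ) : 0 ≤ cst A D i := by
  induction i with
  | zero => exact le_rfl
  | succ i ih =>
    unfold cst
    positivity

theorem cst_mono {A : ℝ} (hA : 0 ≤ A) (D : ℕ) {i j : ℕ} (h : i ≤ j) : cst A D i ≤ cst A D j := by
  induction j with
  | zero =>
    rw [Nat.le_zero.1 h]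
  | succ j ih =>
    rcases Nat.le_or_eq_of_le_succ h with h | h
    · refine (ih h).trans ?_
      have h0 := cst_nonneg hA D j
      have h1 : (0 : ℝ) ≤ D * cst A D j := by positivity
      have h2 : cst A D (j + 1) = A + D * cst A D j + cst A D j := rfl
      rw [h2]
      linarith
    · rw [h]

/-- **The adapted coordinates of a point of a natural box.** -/
theorem adapted_bound {d : ℕ → ℕ} (hd : ∀ i, 1 ≤ d i) {n' D N z : ℕ} (hz : 1 ≤ z) {g : ℕ → ℕ}
    {Ψ : ℕ → PN} {C₁ C₃ : ℝ} (hC₁ : 0 ≤ C₁) (hC₃ : 0 ≤ C₃)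
    (hχ : ∀ i, adp d Ψ i = X i + trw d (d i) (bind₁ (adp d Ψ) (Ψ i)))
    (hv : ∀ i < n', (bind₁ (adp d Ψ) (Ψ i)).vars ⊆ range i)
    (hw : ∀ i < n', ∀ k ∈ (bind₁ (adp d Ψ) (Ψ i)).support, Finsupp.weight d k ≤ D)
    (hg : ∀ i < n', |(g i : ℝ) - d i * (N * z)| ≤ C₁ * z)
    (hG : ∀ i < n', nrm d (rd z N) (gew d (d i) (bind₁ (adp d Ψ) (Ψ i))) ≤
      Real.exp (C₃ * z) * rd z N ^ d i)
    (hev : ∀ (ρ : ℝ), 0 < ρ → ∀ (b : ℕ → ℝ) (F : PN), (∀ i ∈ F.vars, |b i| ≤ ρ ^ d i) →
      |eval b F| ≤ nrm d ρ F)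
    {b Y : ℕ → ℝ} (hbY : ∀ i, b i = eval Y (adp d Ψ i)) (hb : Bx g Ψ n' b) :
    ∀ i ≤ n', ∀ j < i, |Y j| ≤ (Real.exp (cst (1 + C₁ + C₃) D i * z) * rd z N) ^ d j := by
  have hA : 0 ≤ 1 + C₁ + C₃ := by linarith
  have hρ := rd_pos z N
  have hbY' : b = fun i => eval Y (adp d Ψ i) := funext hbY
  intro i
  induction i with
  | zero => exact fun _ j hj => absurd hj (Nat.not_lt_zero j)
  | succ i ih =>
    intro hi j hj
    have ih' := ih (by omega)
    have hmono : Real.exp (cst (1 + C₁ + C₃) D i * z) ≤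
        Real.exp (cst (1 + C₁ + C₃) D (i + 1) * z) :=
      Real.exp_le_exp.2 (mul_le_mul_of_nonneg_right (cst_mono hA D (Nat.le_succ i))
        (Nat.cast_nonneg z))
    rcases Nat.lt_succ_iff_lt_or_eq.1 hj with hj | rfl
    · refine (ih' j hj).trans (pow_le_pow_left₀ (by positivity) ?_ _)
      exact mul_le_mul_of_nonneg_right hmono hρ.le
    · -- the new coordinate
      have hj' : j < n' := by omega
      set G := bind₁ (adp d Ψ) (Ψ j) with hGdef
      have e1 : b j = Y j + eval Y (trw d (d j) G) := by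
        rw [hbY, hχ, map_add, eval_X]
      have e2 : eval b (Ψ j) = eval Y G := by
        rw [hGdef, eval_bind, hbY']
      have e3 : eval Y G = eval Y (trw d (d j) G) + eval Y (gew d (d j) G) := by
        rw [← map_add]
        congr 1
        unfold gew
        ring
      have e4 : Y j = (b j - eval b (Ψ j)) + eval Y (gew d (d j) G) := by
        rw [e1, e2, e3]
        ring
      set E := Real.exp (cst (1 + C₁ + C₃) D j * z) with hE
      have hE1 : 1 ≤ E := Real.one_le_exp (mul_nonneg (cst_nonneg hA D j) (Nat.cast_nonneg z))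
      have e5 : |eval Y (gew d (d j) G)| ≤ nrm d (E * rd z N) (gew d (d j) G) := by
        refine hev _ (by positivity) Y _ fun a ha => ih' a ?_
        exact mem_range.1 ((hv j hj') (vars_gew d (d j) G ha))
      have e6 : nrm d (E * rd z N) (gew d (d j) G) ≤ E ^ D * nrm d (rd z N) (gew d (d j) G) :=
        nrm_scale (fun k hk => hw j hj' k (support_gew d (d j) G hk)) hE1 hρ.le
      have e7 : E ^ D * nrm d (rd z N) (gew d (d j) G) ≤
          E ^ D * (Real.exp (C₃ * z) * rd z N ^ d j) :=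
        mul_le_mul_of_nonneg_left (hG j hj') (by positivity)
      have e8 : |b j - eval b (Ψ j)| ≤ Real.exp (C₁ * z) * rd z N ^ d j :=
        (hb j hj').trans (rd_cmp hC₁ (hg j hj')).1
      have e9 : |Y j| ≤ (Real.exp (C₁ * z) + E ^ D * Real.exp (C₃ * z)) * rd z N ^ d j := by
        rw [e4]
        refine (abs_add_le _ _).trans ?_
        linarith [e8, e5.trans (e6.trans e7)]
      have e10 : Real.exp (C₁ * z) + E ^ D * Real.exp (C₃ * z) ≤
          Real.exp (cst (1 + C₁ + C₃) D (j + 1) * z) := by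
        have a1 : E ^ D * Real.exp (C₃ * z) = Real.exp ((D * cst (1 + C₁ + C₃) D j + C₃) * z) := by
          rw [hE, ← Real.exp_nat_mul, ← Real.exp_add]
          congr 1
          ring
        have hc0 := cst_nonneg hA D j
        have hDc : (0 : ℝ) ≤ D * cst (1 + C₁ + C₃) D j := by positivity
        have hz0 : (0 : ℝ) ≤ z := Nat.cast_nonneg z
        have a2 : Real.exp (C₁ * z) ≤
            Real.exp ((D * cst (1 + C₁ + C₃) D j + C₁ + C₃) * z) :=
          Real.exp_le_exp.2 (mul_le_mul_of_nonneg_right (by linarith) hz0)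
        have a3 : Real.exp ((D * cst (1 + C₁ + C₃) D j + C₃) * z) ≤
            Real.exp ((D * cst (1 + C₁ + C₃) D j + C₁ + C₃) * z) :=
          Real.exp_le_exp.2 (mul_le_mul_of_nonneg_right (by linarith) hz0)
        rw [a1]
        calc _ ≤ 2 * Real.exp ((D * cst (1 + C₁ + C₃) D j + C₁ + C₃) * z) := by linarith
          _ ≤ Real.exp z * Real.exp ((D * cst (1 + C₁ + C₃) D j + C₁ + C₃) * z) :=
            mul_le_mul_of_nonneg_right (two_le_exp hz) (Real.exp_pos _).le
          _ = Real.exp ((1 + C₁ + C₃ + D * cst (1 + C₁ + C₃) D j) * z) := by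
            rw [← Real.exp_add]
            congr 1
            ring
          _ ≤ Real.exp (cst (1 + C₁ + C₃) D (j + 1) * z) := by
            refine Real.exp_le_exp.2 (mul_le_mul_of_nonneg_right ?_ hz0)
            have : cst (1 + C₁ + C₃) D (j + 1) =
              1 + C₁ + C₃ + D * cst (1 + C₁ + C₃) D j + cst (1 + C₁ + C₃) D j := rfl
            rw [this]
            linarith
      set E' := Real.exp (cst (1 + C₁ + C₃) D (j + 1) * z) with hE'
      have hE'1 : 1 ≤ E' :=
        Real.one_le_exp (mul_nonneg (cst_nonneg hA D _) (Nat.cast_nonneg z))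
      calc |Y j| ≤ E' * rd z N ^ d j :=
            e9.trans (mul_le_mul_of_nonneg_right e10 (by positivity))
        _ ≤ E' ^ d j * rd z N ^ d j :=
            mul_le_mul_of_nonneg_right (le_self_pow₀ hE'1 (by have := hd j; omega))
              (by positivity)
        _ = (E' * rd z N) ^ d j := (mul_pow _ _ _).symm

/-- **Row 107.** -/
theorem bxn_of (hA : AdxStmt) (hD : DgbStmt) (hN : NrmStmt) (hL : LadStmt) : BxnStmt := by
  intro n K d σ C₁ C₂ hS hC₁ hC₂
  have hd := hS.d_pos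
  obtain ⟨C₃, hC₃, hlad⟩ := hL n K d σ C₂ hS hC₂
  obtain ⟨K', hK'⟩ := dgb_unif hD n K d hS.d_zero hd
  obtain ⟨m, hm⟩ : ∃ m, m = (Finset.range n).sup d := ⟨_, rfl⟩
  have hm' : ∀ i < n, d i ≤ m := fun i hi => by
    rw [hm]
    exact Finset.le_sup (mem_range.2 hi)
  obtain ⟨Cs, hCs, hsup⟩ := nrm_of_sup n (K * K')
  obtain ⟨D, hDdef⟩ : ∃ D, D = K * K' * m := ⟨_, rfl⟩
  obtain ⟨c, hc⟩ : ∃ c, c = cst (1 + C₁ + C₃) D n := ⟨_, rfl⟩
  have hc0 : 0 ≤ c := by
    rw [hc]
    exact cst_nonneg (by linarith) D n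
  have hCp : (0 : ℝ) ≤ (1 + C₁ + C₃) * D := by
    have : (0 : ℝ) ≤ D := Nat.cast_nonneg D
    nlinarith
  have hcD : (0 : ℝ) ≤ c * D := by positivity
  refine ⟨(1 + C₁ + C₃) * D + Cs + c * D, by linarith, fun N => ?_⟩
  obtain ⟨z₀, hz₀⟩ := hlad N
  refine ⟨max 1 z₀, ?_⟩
  intro z Φ n' g hz hn' hB hLad hg F S hS0 hFv hFd
  have hz1 : 1 ≤ z := (le_max_left _ _).trans hz
  have hz0 : (0 : ℝ) ≤ z := Nat.cast_nonneg z
  have hlad1 := (hz₀ z Φ n' ((le_max_right _ _).trans hz) (by omega) hB hLad).1 N le_rfl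
  set Ψ := Φ N with hΨ
  have htri : TriN Ψ := hB.tri N le_rfl
  obtain ⟨hχ, hχt, hinv, -⟩ := hA.2 d Ψ hS.d_zero hd htri
  have hχv : ∀ i, (adp d Ψ i).vars ⊆ range (i + 1) := vars_of_tri hχt
  have hdeg := hK' Ψ g n' (by omega) htri (hB.deg N le_rfl)
  obtain ⟨hTt, hT1, hT2⟩ := hinv (adp d Ψ) hχt
  have hρ := rd_pos z N
  have hev : ∀ (ρ : ℝ), 0 < ρ → ∀ (b : ℕ → ℝ) (F : PN), (∀ i ∈ F.vars, |b i| ≤ ρ ^ d i) →
      |eval b F| ≤ nrm d ρ F := fun ρ hρ =>
    (hN d ρ hd hρ).2.2.2.2.2.2.2.2.2.2.2.2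
  -- the polynomials in adapted coordinates
  have hGv : ∀ i < n', (bind₁ (adp d Ψ) (Ψ i)).vars ⊆ range i := fun i _ =>
    vars_bind (htri i) fun j _ => hχv j
  have hGw : ∀ i < n', ∀ k ∈ (bind₁ (adp d Ψ) (Ψ i)).support, Finsupp.weight d k ≤ D := by
    intro i hi k hk
    rw [hDdef]
    refine weight_le (n := n) ((hGv i hi).trans (Finset.range_mono (by omega))) ?_ hm' k hk
    exact totalDegree_bind (n := n') ((htri i).trans (Finset.range_mono hi.le))
      (hB.deg N le_rfl i hi) fun j hj => (hdeg j hj).1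
  have hGn : ∀ i < n', nrm d (rd z N) (gew d (d i) (bind₁ (adp d Ψ) (Ψ i))) ≤
      Real.exp (C₃ * z) * rd z N ^ d i := by
    intro i hi
    have := (hlad1 i hi).2
    rwa [hS.int i (by omega), Real.rpow_natCast] at this
  have hFv' : (bind₁ (adp d Ψ) F).vars ⊆ range n' := vars_bind hFv fun j _ => hχv j
  have hFd' : (bind₁ (adp d Ψ) F).totalDegree ≤ K * K' :=
    totalDegree_bind hFv hFd fun j hj => (hdeg j hj).1
  have hFw : ∀ k ∈ (bind₁ (adp d Ψ) F).support, Finsupp.weight d k ≤ D := by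
    rw [hDdef]
    exact weight_le (n := n) (hFv'.trans (Finset.range_mono hn')) hFd' hm'
  constructor
  · -- from the box to the norm
    intro hbox
    set t := Real.exp (-((1 + C₁ + C₃) * z)) with ht
    have ht0 : 0 < t := Real.exp_pos _
    have ht1 : t ≤ 1 := by
      rw [ht]
      refine Real.exp_le_one_iff.2 ?_
      have : 0 ≤ (1 + C₁ + C₃) * z := mul_nonneg (by linarith) hz0
      linarith
    have h1 : nrm d (t * rd z N) (bind₁ (adp d Ψ) F) ≤ Cs * S := by
      refine hsup d _ _ S (by positivity) (hFv'.trans (Finset.range_mono hn')) hFd' ?_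
      intro Y hY
      rw [eval_bind]
      refine hbox _ fun i hi => ?_
      set G := bind₁ (adp d Ψ) (Ψ i) with hG
      have e1 : eval Y (adp d Ψ i) = Y i + eval Y (trw d (d i) G) := by
        rw [hχ, map_add, eval_X]
      have e2 : eval (fun j => eval Y (adp d Ψ j)) (Ψ i) = eval Y G := by
        rw [hG, eval_bind]
      have e3 : eval Y G = eval Y (trw d (d i) G) + eval Y (gew d (d i) G) := by
        rw [← map_add]
        congr 1
        unfold gew
        ring
      have e4 : eval Y (adp d Ψ i) - eval (fun j => eval Y (adp d Ψ j)) (Ψ i) =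
          Y i - eval Y (gew d (d i) G) := by
        rw [e1, e2, e3]
        ring
      have e5 : |eval Y (gew d (d i) G)| ≤ nrm d (t * rd z N) (gew d (d i) G) := by
        refine hev _ (by positivity) Y _ fun a ha => hY a ?_
        have := mem_range.1 ((hGv i hi) (vars_gew d (d i) G ha))
        omega
      have e6 : nrm d (t * rd z N) (gew d (d i) G) ≤ t ^ d i * nrm d (rd z N) (gew d (d i) G) :=
        nrm_shrink weight_gew ht0.le ht1 hρ.le
      have e7 : t ^ d i * nrm d (rd z N) (gew d (d i) G) ≤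
          t ^ d i * (Real.exp (C₃ * z) * rd z N ^ d i) :=
        mul_le_mul_of_nonneg_left (hGn i hi) (by positivity)
      have e8 : t ^ d i ≤ t := pow_le_of_le_one ht0.le ht1 (by have := hd i; omega)
      have e9 : |eval Y (adp d Ψ i) - eval (fun j => eval Y (adp d Ψ j)) (Ψ i)| ≤
          t * (2 * (Real.exp (C₃ * z) * rd z N ^ d i)) := by
        rw [e4]
        have a1 : |Y i| ≤ t ^ d i * rd z N ^ d i := by
          have := hY i (by omega)
          rwa [mul_pow] at this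
        have a2 : (1 : ℝ) ≤ Real.exp (C₃ * z) := Real.one_le_exp (by positivity)
        have a3 : 0 < rd z N ^ d i := by positivity
        have a4 : |Y i - eval Y (gew d (d i) G)| ≤ |Y i| + |eval Y (gew d (d i) G)| := abs_sub _ _
        have a5 : t ^ d i * rd z N ^ d i ≤ t * (Real.exp (C₃ * z) * rd z N ^ d i) := by
          refine mul_le_mul e8 ?_ a3.le ht0.le
          nlinarith
        have a6 : t ^ d i * (Real.exp (C₃ * z) * rd z N ^ d i) ≤
            t * (Real.exp (C₃ * z) * rd z N ^ d i) :=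
          mul_le_mul_of_nonneg_right e8 (by positivity)
        linarith [e5.trans (e6.trans e7)]
      refine e9.trans ?_
      refine le_trans ?_ (rd_cmp (by linarith) (hg i hi)).2
      have a7 : t * (2 * (Real.exp (C₃ * z) * rd z N ^ d i)) ≤
          t * (Real.exp z * (Real.exp (C₃ * z) * rd z N ^ d i)) := by
        refine mul_le_mul_of_nonneg_left ?_ ht0.le
        exact mul_le_mul_of_nonneg_right (two_le_exp hz1) (by positivity)
      refine a7.trans (le_of_eq ?_)
      rw [ht, ← mul_assoc, ← mul_assoc, ← Real.exp_add, ← Real.exp_add]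
      congr 2
      ring
    have h2 : rd z N = t⁻¹ * (t * rd z N) := by
      field_simp
    have ht2 : t⁻¹ = Real.exp ((1 + C₁ + C₃) * z) := by
      rw [ht, Real.exp_neg, inv_inv]
    have h3 : nrm d (rd z N) (bind₁ (adp d Ψ) F) ≤ t⁻¹ ^ D * nrm d (t * rd z N) (bind₁ (adp d Ψ) F) := by
      conv_lhs => rw [h2]
      exact nrm_scale hFw (one_le_inv_iff₀.2 ⟨ht0, ht1⟩) (by positivity)
    calc nrm d (rd z N) (bind₁ (adp d Ψ) F) ≤ t⁻¹ ^ D * (Cs * S) :=
          h3.trans (mul_le_mul_of_nonneg_left h1 (by positivity))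
      _ ≤ t⁻¹ ^ D * (Real.exp (Cs * z) * S) := by
          refine mul_le_mul_of_nonneg_left ?_ (by positivity)
          exact mul_le_mul_of_nonneg_right (le_exp_mul hz1 (by linarith)) hS0
      _ = Real.exp (((1 + C₁ + C₃) * D + Cs) * z) * S := by
          rw [ht2, ← Real.exp_nat_mul, ← mul_assoc, ← Real.exp_add]
          congr 2
          ring
      _ ≤ Real.exp (((1 + C₁ + C₃) * D + Cs + c * D) * z) * S := by
          refine mul_le_mul_of_nonneg_right (Real.exp_le_exp.2 ?_) hS0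
          exact mul_le_mul_of_nonneg_right (by linarith) hz0
  · -- from the norm to the box
    intro hnrm b hb
    obtain ⟨Y, hYdef⟩ : ∃ Y : ℕ → ℝ, Y = fun j => eval b (tinv (adp d Ψ) j) := ⟨_, rfl⟩
    have hbY : ∀ i, b i = eval Y (adp d Ψ i) := by
      intro i
      have h1 := congrArg (eval b) (hT1 i)
      rw [eval_bind, eval_X] at h1
      rw [hYdef]
      exact h1.symm
    have hY := adapted_bound hd hz1 (by linarith) (by linarith) hχ hGv hGw hg hGn hev hbY hb n' le_rfl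
    have h1 : eval b F = eval Y (bind₁ (adp d Ψ) F) := by
      rw [eval_bind]
      congr 2
      exact funext hbY
    rw [h1]
    have hcn : cst (1 + C₁ + C₃) D n' ≤ c := by
      rw [hc]
      exact cst_mono (by linarith) D hn'
    set E := Real.exp (c * z) with hE
    have hE1 : 1 ≤ E := Real.one_le_exp (by positivity)
    have hY' : ∀ j ∈ (bind₁ (adp d Ψ) F).vars, |Y j| ≤ (E * rd z N) ^ d j := by
      intro j hj
      refine (hY j (mem_range.1 (hFv' hj))).trans (pow_le_pow_left₀ (by positivity) ?_ _)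
      refine mul_le_mul_of_nonneg_right (Real.exp_le_exp.2 ?_) hρ.le
      exact mul_le_mul_of_nonneg_right hcn hz0
    calc |eval Y (bind₁ (adp d Ψ) F)| ≤ nrm d (E * rd z N) (bind₁ (adp d Ψ) F) :=
          hev _ (by positivity) Y _ hY'
      _ ≤ E ^ D * nrm d (rd z N) (bind₁ (adp d Ψ) F) := nrm_scale hFw hE1 hρ.le
      _ ≤ E ^ D * S := mul_le_mul_of_nonneg_left hnrm (by positivity)
      _ = Real.exp (c * D * z) * S := by
          rw [hE, ← Real.exp_nat_mul]
          congr 2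
          ring
      _ ≤ Real.exp (((1 + C₁ + C₃) * D + Cs + c * D) * z) * S := by
          refine mul_le_mul_of_nonneg_right (Real.exp_le_exp.2 ?_) hS0
          exact mul_le_mul_of_nonneg_right (by linarith) hz0

end Pool.SYS35
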